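import Mathlib

namespace Pool.Agent.W242.HS

theorem hs_m (B m : ℕ) (b : ℕ) (hm : 1 ≤ m) (hb : 32*B + 64 ≤ b)
    (h : ∀ p : ℕ, p.Prime → B ≤ p → b < 16*p → p ≤ b → p ∣ m) : b^4 ≤ 1024*m := by
  obtain ⟨p1, hp1, l1, u1⟩ := Nat.exists_prime_lt_and_le_two_mul (b/2) (by omega)
  obtain ⟨p2, hp2, l2, u2⟩ := Nat.exists_prime_lt_and_le_two_mul (b/4) (by omega)
  obtain ⟨p3, hp3, l3, u3⟩ := Nat.exists_prime_lt_and_le_two_mul (b/8) (by omega)
  obtain ⟨p4, hp4, l4, u4⟩ := Nat.exists_prime_lt_and_le_two_mul (b/16) (by omega)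
  have d1 := h p1 hp1 (by omega) (by omega) (by omega)
  have d2 := h p2 hp2 (by omega) (by omega) (by omega)
  have d3 := h p3 hp3 (by omega) (by omega) (by omega)
  have d4 := h p4 hp4 (by omega) (by omega) (by omega)
  have n12 : p1 ≠ p2 := by omega
  have n13 : p1 ≠ p3 := by omega
  have n14 : p1 ≠ p4 := by omega
  have n23 : p2 ≠ p3 := by omega
  have n24 : p2 ≠ p4 := by omega
  have n34 : p3 ≠ p4 := by omega
  have c12 : Nat.Coprime p1 p2 := (Nat.coprime_primes hp1 hp2).2 n12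
  have c13 : Nat.Coprime p1 p3 := (Nat.coprime_primes hp1 hp3).2 n13
  have c14 : Nat.Coprime p1 p4 := (Nat.coprime_primes hp1 hp4).2 n14
  have c23 : Nat.Coprime p2 p3 := (Nat.coprime_primes hp2 hp3).2 n23
  have c24 : Nat.Coprime p2 p4 := (Nat.coprime_primes hp2 hp4).2 n24
  have c34 : Nat.Coprime p3 p4 := (Nat.coprime_primes hp3 hp4).2 n34
  have e1 : p1 * p2 ∣ m := c12.mul_dvd_of_dvd_of_dvd d1 d2
  have e2 : p3 * p4 ∣ m := c34.mul_dvd_of_dvd_of_dvd d3 d4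
  have cc : Nat.Coprime (p1 * p2) (p3 * p4) :=
    Nat.Coprime.mul_left (Nat.Coprime.mul_right c13 c14) (Nat.Coprime.mul_right c23 c24)
  have e3 : (p1 * p2) * (p3 * p4) ∣ m := cc.mul_dvd_of_dvd_of_dvd e1 e2
  have e4 : (p1 * p2) * (p3 * p4) ≤ m := Nat.le_of_dvd (by omega) e3
  have q1 : b ≤ 2 * p1 := by omega
  have q2 : b ≤ 4 * p2 := by omega
  have q3 : b ≤ 8 * p3 := by omega
  have q4 : b ≤ 16 * p4 := by omega
  calc b^4 = (b * b) * (b * b) := by ring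
    _ ≤ ((2 * p1) * (4 * p2)) * ((8 * p3) * (16 * p4)) :=
        Nat.mul_le_mul (Nat.mul_le_mul q1 q2) (Nat.mul_le_mul q3 q4)
    _ = 1024 * ((p1 * p2) * (p3 * p4)) := by ring
    _ ≤ 1024 * m := Nat.mul_le_mul_left _ e4

end Pool.Agent.W242.HS
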