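import Mathlib

namespace Pool.Agent.W242.HS

lemma log_t (t : ℝ) (h0 : 0 < t) (h1 : t ≤ 1 / 2) :
    2 * t + 2 * t ^ 3 / 3 ≤ Real.log ((1 + t) / (1 - t)) ∧
    Real.log ((1 + t) / (1 - t)) ≤ 2 * t + 2 * t ^ 3 / 3 + 2 * t ^ 5 / (1 - t ^ 2) := by
  have a := Real.sum_range_le_log_div h0.le (by linarith : t < 1) 2
  have b := Real.log_div_le_sum_range_add h0.le (by linarith : t < 1) 2
  simp only [Finset.sum_range_succ, Finset.sum_range_zero] at a b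
  norm_num at a b
  constructor
  · linarith
  · have e : 2 * t ^ 5 / (1 - t ^ 2) = 2 * (t ^ 5 / (1 - t ^ 2)) := by ring
    rw [e]
    linarith

lemma alg_t (t : ℝ) (h0 : 0 < t) (h1 : t ≤ 1 / 2) :
    (2 / 3) * t ^ 3 / (1 - t ^ 2) ^ 2 - 2 * t ^ 3 / 3 ≤
      (4 / 3) * t ^ 5 * (1 + t ^ 2) / (1 - t ^ 2) ^ 4 ∧
    2 * t ^ 5 / (1 - t ^ 2) ≤ (2 / 3) * t ^ 3 / (1 - t ^ 2) ^ 2 - 2 * t ^ 3 / 3
      + (4 / 3) * t ^ 5 * (1 + t ^ 2) / (1 - t ^ 2) ^ 4 := by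
  have ht2 : t ^ 2 ≤ 1 / 4 := by nlinarith
  have hu : 0 < 1 - t ^ 2 := by linarith
  set s := t ^ 2 with hs
  have hs0 : 0 < s := by positivity
  have e3 : t ^ 3 = t * s := by rw [hs]; ring
  have e5 : t ^ 5 = t * s ^ 2 := by rw [hs]; ring
  rw [e3, e5]
  have hts : 0 < t * s ^ 2 := by positivity
  -- first difference
  have d1 : (2 / 3) * (t * s) / (1 - s) ^ 2 - 2 * (t * s) / 3
      = (t * s ^ 2) * ((2 / 3) * (2 - s) / (1 - s) ^ 2) := by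
    field_simp
    ring
  have d2 : (4 / 3) * (t * s ^ 2) * (1 + s) / (1 - s) ^ 4
      = (t * s ^ 2) * ((4 / 3) * (1 + s) / (1 - s) ^ 4) := by ring
  have d3 : 2 * (t * s ^ 2) / (1 - s) = (t * s ^ 2) * (2 / (1 - s)) := by ring
  rw [d1, d2, d3]
  constructor
  · apply mul_le_mul_of_nonneg_left _ hts.le
    rw [div_le_div_iff₀ (by positivity) (by positivity)]
    have h2 : (1 - s) ^ 4 = (1 - s) ^ 2 * (1 - s) ^ 2 := by ring
    rw [h2]
    have h3 : (1 - s) ^ 2 ≤ 1 := by nlinarith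
    have h4 : 0 < (1 - s) ^ 2 := by positivity
    have h5 : 2 / 3 * (2 - s) * (1 - s) ^ 2 ≤ 4 / 3 * (1 + s) := by nlinarith
    have h6 := mul_le_mul_of_nonneg_right h5 h4.le
    nlinarith [h6]
  · rw [← mul_add]
    apply mul_le_mul_of_nonneg_left _ hts.le
    have h2 : 2 / (1 - s) ≤ (4 / 3) / (1 - s) ^ 4 + (2 / 3) * (2 - s) / (1 - s) ^ 2 := by
      have k1 : (4:ℝ) / 3 ≤ (4 / 3) / (1 - s) ^ 4 := by
        rw [le_div_iff₀ (by positivity)]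
        have : (1 - s) ^ 4 ≤ 1 := pow_le_one₀ hu.le (by linarith)
        nlinarith
      have k2 : (2 / 3) * (2 - s) / (1 - s) ≤ (2 / 3) * (2 - s) / (1 - s) ^ 2 := by
        apply div_le_div_of_nonneg_left _ (by positivity)
        · nlinarith
        · nlinarith
      have k3 : 2 / (1 - s) ≤ 4 / 3 + (2 / 3) * (2 - s) / (1 - s) := by
        have : 4 / 3 + (2 / 3) * (2 - s) / (1 - s) = (4 / 3 * (1 - s) + 2 / 3 * (2 - s)) / (1 - s) := by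
          field_simp
        rw [this]
        apply div_le_div_of_nonneg_right _ hu.le
        linarith
      linarith
    have h3 : (4 / 3) / (1 - s) ^ 4 ≤ (4 / 3) * (1 + s) / (1 - s) ^ 4 := by
      apply div_le_div_of_nonneg_right _ (by positivity)
      nlinarith
    linarith

lemma one_step (n : ℕ) (hn : 1 ≤ n) :
    |Real.log (2*(n:ℝ)+1) - Real.log (2*(n:ℝ)-1) - 1/(n:ℝ)
      - (1/6)*(1/(2*(n:ℝ)-1)^2 - 1/(2*(n:ℝ)+1)^2)| ≤
      (1/6)*(1/(2*(n:ℝ)-1)^4 - 1/(2*(n:ℝ)+1)^4) := by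
  have hnR : (1:ℝ) ≤ n := by exact_mod_cast hn
  set t : ℝ := 1 / (2 * n) with ht
  have ht0 : 0 < t := by positivity
  have ht1 : t ≤ 1 / 2 := by
    rw [ht]
    apply one_div_le_one_div_of_le (by norm_num)
    linarith
  have hu : 0 < 1 - t ^ 2 := by nlinarith
  have hm : 0 < 1 - t := by linarith
  have hp : 0 < 1 + t := by linarith
  have hnt : (n:ℝ) = 1 / (2 * t) := by rw [ht]; field_simp
  have L := log_t t ht0 ht1
  have A := alg_t t ht0 ht1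
  have e1 : 2*(n:ℝ)+1 = (1 + t) / t := by rw [hnt]; field_simp
  have e2 : 2*(n:ℝ)-1 = (1 - t) / t := by rw [hnt]; field_simp
  have e3 : 1/(n:ℝ) = 2 * t := by rw [hnt]; field_simp
  have el : Real.log (2*(n:ℝ)+1) - Real.log (2*(n:ℝ)-1) = Real.log ((1 + t) / (1 - t)) := by
    rw [e1, e2, Real.log_div hp.ne' ht0.ne', Real.log_div hm.ne' ht0.ne',
      Real.log_div hp.ne' hm.ne']
    ring
  have f1 : (1/6)*(1/(2*(n:ℝ)-1)^2 - 1/(2*(n:ℝ)+1)^2) = (2 / 3) * t ^ 3 / (1 - t ^ 2) ^ 2 := by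
    rw [e1, e2]
    have : 1 - t ^ 2 = (1 - t) * (1 + t) := by ring
    rw [this]
    field_simp
    ring
  have f2 : (1/6)*(1/(2*(n:ℝ)-1)^4 - 1/(2*(n:ℝ)+1)^4)
      = (4 / 3) * t ^ 5 * (1 + t ^ 2) / (1 - t ^ 2) ^ 4 := by
    rw [e1, e2]
    have : 1 - t ^ 2 = (1 - t) * (1 + t) := by ring
    rw [this]
    field_simp
    ring
  rw [el, e3, f1, f2, abs_le]
  constructor
  · linarith [L.1, A.1]
  · linarith [L.2, A.2]

theorem hs_tel (a b : ℕ) (ha : 1 ≤ a) (hab : a ≤ b) :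
    |Real.log (2*(b:ℝ)+1) - Real.log (2*(a:ℝ)-1) - ∑ n ∈ Finset.Icc a b, (1/(n:ℝ)) - (1/6)*(1/(2*(a:ℝ)-1)^2 - 1/(2*(b:ℝ)+1)^2)| ≤ (1/6)*(1/(2*(a:ℝ)-1)^4 - 1/(2*(b:ℝ)+1)^4) := by
  induction b, hab using Nat.le_induction with
  | base =>
    rw [Finset.Icc_self, Finset.sum_singleton]
    exact one_step a ha
  | succ b hb ih =>
    rw [Finset.sum_Icc_succ_top (by omega)]
    have s := one_step (b+1) (by omega)
    push_cast at s ⊢
    have e : 2 * ((b:ℝ) + 1) - 1 = 2 * b + 1 := by ring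
    rw [e] at s
    rw [abs_le] at ih s ⊢
    constructor <;> linarith [ih.1, ih.2, s.1, s.2]

end Pool.Agent.W242.HS
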