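import Mathlib

set_option autoImplicit false

open NumberField

namespace Pool.Agent.W242.PellConic

/-- `3 w = -2` has no solution among algebraic integers. -/
theorem no_third {K : Type} [Field K] [NumberField K] (w : 𝓞 K) (h : 3 * w = -2) : False := by
  have h1 : (3 : K) * (w : K) = -2 := by
    have := congrArg (algebraMap (𝓞 K) K) h
    rw [map_mul, map_neg, map_ofNat, map_ofNat] at this
    exact this
  have h2 : (w : K) = algebraMap ℚ K (-2 / 3) := by
    have h3 : (3 : K) ≠ 0 := by norm_num
    rw [map_div₀]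
    simp only [map_neg, map_ofNat]
    field_simp
    linear_combination h1
  have h4 : IsIntegral ℤ (algebraMap ℚ K (-2 / 3)) := by
    rw [← h2]; exact w.isIntegral_coe
  have h5 : IsIntegral ℤ (-2 / 3 : ℚ) :=
    (isIntegral_algebraMap_iff (algebraMap ℚ K).injective).mp h4
  obtain ⟨n, hn⟩ := IsIntegrallyClosed.isIntegral_iff.mp h5
  have h6 : (3 : ℚ) * n = -2 := by
    rw [show ((n : ℤ) : ℚ) = algebraMap ℤ ℚ n by simp, hn]; norm_num
  have h7 : (3 : ℤ) * n = -2 := by exact_mod_cast h6
  omega

/-- a rational algebraic integer is an integer. -/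
theorem int_of_rat {K : Type} [Field K] [NumberField K] (w : 𝓞 K) (q : ℚ)
    (h : (w : K) = algebraMap ℚ K q) : ∃ n : ℤ, w = (n : 𝓞 K) := by
  have h4 : IsIntegral ℤ (algebraMap ℚ K q) := by
    rw [← h]; exact w.isIntegral_coe
  have h5 : IsIntegral ℤ (q : ℚ) :=
    (isIntegral_algebraMap_iff (algebraMap ℚ K).injective).mp h4
  obtain ⟨n, hn⟩ := IsIntegrallyClosed.isIntegral_iff.mp h5
  refine ⟨n, ?_⟩
  apply RingOfIntegers.ext
  rw [h, ← hn]
  simp

/-- an algebraic integer all of whose absolute values are `< 1` is zero. -/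
theorem eq_zero_of_small {K : Type} [Field K] [NumberField K] (s : 𝓞 K)
    (h : ∀ φ : K →+* ℂ, ‖φ (s : K)‖ < 1) : s = 0 := by
  by_contra h0
  obtain ⟨w⟩ : Nonempty (InfinitePlace K) := inferInstance
  have h1 : ∀ z : InfinitePlace K, z (s : K) < 1 := by
    intro z
    rw [← InfinitePlace.norm_embedding_eq]
    exact h _
  have := InfinitePlace.one_le_of_lt_one (w := w) h0 (fun z _ => h1 z)
  exact absurd (h1 w) (not_lt.mpr this)

/-- The purely algebraic core: `σ` a ring involution-like endomorphism, `X² - D y² = 1`, and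
`y σ(X) = X σ(y)`; then `σ` scales the solution by `r = X σ(X) - D y σ(y)`. -/
theorem core {R : Type} [CommRing R] (D X y X' y' : R) (h : X ^ 2 - D * y ^ 2 = 1)
    (hs : y * X' - X * y' = 0) :
    X * (X * X' - D * y * y') = X' ∧ y * (X * X' - D * y * y') = y' := by
  constructor
  · linear_combination (X') * h + (D * y) * hs
  · linear_combination (y') * h + (X) * hs

/-- **No growth over the maximal real subfield.**  For a CM field `K` and `D > 1` the conic
`(1 + 3x)² - D y² = 1` has no integral points over `K` besides those over the real subfield. -/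
theorem cm_fixed {K : Type} [Field K] [NumberField K] [IsCMField K] (D : ℕ) (hD : 1 < D)
    (x y : 𝓞 K) (h : (1 + 3 * x) ^ 2 - (D : 𝓞 K) * y ^ 2 = 1) :
    IsCMField.complexConj K (x : K) = x ∧ IsCMField.complexConj K (y : K) = y := by
  set c := IsCMField.ringOfIntegersComplexConj K with hc
  set X : 𝓞 K := 1 + 3 * x with hX
  have hc3 : c (3 : 𝓞 K) = 3 := map_ofNat c 3
  have hcX : c X = 1 + 3 * c x := by rw [hX, map_add, map_mul, map_one, hc3]
  have hcc : ∀ z : 𝓞 K, c (c z) = z := by
    intro z
    apply RingOfIntegers.ext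
    simp [hc]
  have hconj : (c X) ^ 2 - (D : 𝓞 K) * (c y) ^ 2 = 1 := by
    have := congrArg c h
    simpa using this
  set r : 𝓞 K := X * c X - D * y * c y with hr
  set s : 𝓞 K := y * c X - X * c y with hs
  have hrs : r ^ 2 - (D : 𝓞 K) * s ^ 2 = 1 := by
    have : r ^ 2 - (D : 𝓞 K) * s ^ 2 =
        (X ^ 2 - (D : 𝓞 K) * y ^ 2) * ((c X) ^ 2 - (D : 𝓞 K) * (c y) ^ 2) := by
      rw [hr, hs]; ring
    rw [this, h, hconj]; ring
  have hcr : c r = r := by
    simp only [hr, map_sub, map_mul, hcc, map_natCast]; ring
  have hcs : c s = -s := by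
    simp only [hs, map_sub, map_mul, hcc]; ring
  have hs0 : s = 0 := by
    apply eq_zero_of_small
    intro φ
    have h1 : (starRingEnd ℂ) (φ (r : K)) = φ (r : K) := by
      rw [← IsCMField.complexEmbedding_complexConj]
      have := congrArg (fun z : 𝓞 K => (z : K)) hcr
      simp only [hc, IsCMField.coe_ringOfIntegersComplexConj] at this
      rw [this]
    have h2 : (starRingEnd ℂ) (φ (s : K)) = - φ (s : K) := by
      rw [← IsCMField.complexEmbedding_complexConj]
      have := congrArg (fun z : 𝓞 K => (z : K)) hcs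
      simp only [hc, IsCMField.coe_ringOfIntegersComplexConj] at this
      rw [this]
      simp
    have h3 : (φ (r : K)) ^ 2 - (D : ℂ) * (φ (s : K)) ^ 2 = 1 := by
      have := congrArg (fun z : 𝓞 K => φ (z : K)) hrs
      simpa using this
    have h4 : (φ (r : K)).im = 0 := Complex.conj_eq_iff_im.mp h1
    have h5 : (φ (s : K)).re = 0 := by
      have := congrArg Complex.re h2
      simp at this
      linarith
    have h6 : (φ (r : K)).re ^ 2 + D * (φ (s : K)).im ^ 2 = 1 := by
      have := congrArg Complex.re h3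
      simp [pow_two, h4, h5] at this
      nlinarith [this]
    have h7 : ‖φ (s : K)‖ ^ 2 = (φ (s : K)).im ^ 2 := by
      rw [← Complex.normSq_eq_norm_sq, Complex.normSq_apply, h5]; ring
    have hD' : (2 : ℝ) ≤ D := by exact_mod_cast hD
    have h8 : ‖φ (s : K)‖ ^ 2 < 1 := by
      rw [h7]
      nlinarith [sq_nonneg (φ (r : K)).re, sq_nonneg (φ (s : K)).im]
    nlinarith [norm_nonneg (φ (s : K))]
  have hcore := core (D : 𝓞 K) X y (c X) (c y) h (by rw [← hs]; exact hs0)
  rw [← hr] at hcore
  have hr1 : r = 1 ∨ r = -1 := by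
    have : r ^ 2 = 1 := by
      have := hrs
      rw [hs0] at this
      simpa using this
    have h2 : (r - 1) * (r + 1) = 0 := by linear_combination this
    rcases mul_eq_zero.mp h2 with h3 | h3
    · left; linear_combination h3
    · right; linear_combination h3
  rcases hr1 with h1 | h1
  · rw [h1] at hcore
    simp only [mul_one] at hcore
    obtain ⟨ha, hb⟩ := hcore
    have hx : c x = x := by
      have h3 : (3 : 𝓞 K) ≠ 0 := by norm_num
      apply mul_left_cancel₀ h3
      rw [hcX, hX] at ha
      linear_combination -ha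
    constructor
    · have := congrArg (fun z : 𝓞 K => (z : K)) hx
      simpa only [hc, IsCMField.coe_ringOfIntegersComplexConj] using this
    · have := congrArg (fun z : 𝓞 K => (z : K)) hb.symm
      simpa only [hc, IsCMField.coe_ringOfIntegersComplexConj] using this
  · exfalso
    rw [h1] at hcore
    obtain ⟨ha, -⟩ := hcore
    apply no_third (x + c x)
    rw [hcX, hX] at ha
    linear_combination -ha

end Pool.Agent.W242.PellConic
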