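import Mathlib
import Pool.Agent.W242.PellA

set_option autoImplicit false

open NumberField

namespace Pool.Agent.W242.PellConic

/-- the nontrivial automorphism of a quadratic field. -/
theorem exists_conj {F : Type} [Field F] [NumberField F] (h2 : Module.finrank ℚ F = 2) :
    ∃ σ : F ≃ₐ[ℚ] F, (∃ z, σ z ≠ z) ∧ (∀ z, σ (σ z) = z) ∧
      (∀ z, σ z = z → ∃ q : ℚ, z = algebraMap ℚ F q) := by
  classical
  have : Algebra.IsQuadraticExtension ℚ F := ⟨h2⟩
  have hcard : Nat.card (F ≃ₐ[ℚ] F) = 2 := by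
    rw [IsGalois.card_aut_eq_finrank, h2]
  have : Finite (F ≃ₐ[ℚ] F) := Nat.finite_of_card_ne_zero (by omega)
  obtain ⟨σ, hσ⟩ : ∃ σ : F ≃ₐ[ℚ] F, σ ≠ 1 := by
    by_contra hcon
    push Not at hcon
    have : Subsingleton (F ≃ₐ[ℚ] F) := ⟨fun a b => by rw [hcon a, hcon b]⟩
    have := Nat.card_of_subsingleton (1 : F ≃ₐ[ℚ] F)
    omega
  have hall : ∀ τ : F ≃ₐ[ℚ] F, τ = 1 ∨ τ = σ := by
    intro τ
    by_contra hcon
    push Not at hcon
    have := Fintype.ofFinite (F ≃ₐ[ℚ] F)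
    have h3 : ({1, σ, τ} : Finset (F ≃ₐ[ℚ] F)).card = 3 := by
      rw [Finset.card_insert_of_notMem, Finset.card_insert_of_notMem, Finset.card_singleton]
      · simp only [Finset.mem_singleton]; exact fun h => hcon.2 h.symm
      · simp only [Finset.mem_insert, Finset.mem_singleton, not_or]
        exact ⟨fun h => hσ h.symm, fun h => hcon.1 h.symm⟩
    have h4 := Finset.card_le_univ ({1, σ, τ} : Finset (F ≃ₐ[ℚ] F))
    rw [h3, ← Nat.card_eq_fintype_card, hcard] at h4
    omega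
  refine ⟨σ, ?_, ?_, ?_⟩
  · by_contra hcon
    push Not at hcon
    exact hσ (by ext z; simpa using hcon z)
  · intro z
    rcases hall (σ * σ) with h | h
    · have := congrArg (fun τ : F ≃ₐ[ℚ] F => τ z) h
      simpa using this
    · exfalso
      apply hσ
      have h5 : σ * σ = σ * 1 := by rw [h, mul_one]
      exact mul_left_cancel h5
  · intro z hz
    have h5 : z ∈ (⊥ : IntermediateField ℚ F) := by
      rw [IsGalois.mem_bot_iff_fixed]
      intro τ
      rcases hall τ with h | h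
      · rw [h]; rfl
      · rw [h]; exact hz
    obtain ⟨q, hq⟩ := IntermediateField.mem_bot.mp h5
    exact ⟨q, hq.symm⟩

/-- a square root of a nonsquare natural number in a quadratic field with a real embedding. -/
theorem exists_sqrt {F : Type} [Field F] [NumberField F]
    (φ : F →+* ℝ) (σ : F ≃ₐ[ℚ] F) (h1 : ∃ z, σ z ≠ z) (hσσ : ∀ z, σ (σ z) = z)
    (hfix : ∀ z, σ z = z → ∃ q : ℚ, z = algebraMap ℚ F q) :
    ∃ (D : ℕ) (s : 𝓞 F), 1 < D ∧ ¬ IsSquare (D : ℤ) ∧ s ^ 2 = (D : 𝓞 F) ∧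
      σ (s : F) = - (s : F) ∧ s ≠ 0 := by
  obtain ⟨z, hz⟩ := h1
  obtain ⟨m, hm0, hm⟩ := exists_integral_multiples ℤ ℚ ({z} : Finset F)
  have hmz : IsIntegral ℤ (m • z) := hm z (Finset.mem_singleton_self z)
  set α : F := m • z with hα
  have hσα : σ α ≠ α := by
    intro h
    apply hz
    rw [hα, map_zsmul] at h
    have h3 : (m : F) * σ z = (m : F) * z := by simpa [zsmul_eq_mul] using h
    exact mul_left_cancel₀ (by exact_mod_cast hm0) h3
  have hσint : IsIntegral ℤ (σ α) := by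
    have := hmz.map (σ.restrictScalars ℤ).toAlgHom
    simpa using this
  have hβint : IsIntegral ℤ (α - σ α) := hmz.sub hσint
  set s : 𝓞 F := ⟨α - σ α, hβint⟩ with hs
  have hsF : (s : F) = α - σ α := rfl
  have hσs : σ (s : F) = - (s : F) := by
    rw [hsF, map_sub, hσσ]; ring
  have hs0 : s ≠ 0 := by
    intro h
    apply hσα
    have : (s : F) = 0 := by rw [h]; simp
    rw [hsF] at this
    exact (sub_eq_zero.mp this).symm
  have hs0F : (s : F) ≠ 0 := by
    intro h
    apply hs0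
    exact RingOfIntegers.ext (by rw [h]; simp)
  have hsq : ∃ n : ℤ, s ^ 2 = (n : 𝓞 F) := by
    obtain ⟨q, hq⟩ := hfix ((s : F) ^ 2) (by rw [map_pow, hσs]; ring)
    exact int_of_rat (s ^ 2) q (by rw [← hq]; simp)
  obtain ⟨n, hn⟩ := hsq
  have hnF : (s : F) ^ 2 = (n : F) := by
    have := congrArg (algebraMap (𝓞 F) F) hn
    simpa using this
  have hpos : (0 : ℝ) < n := by
    have h3 : (φ (s : F)) ^ 2 = (n : ℝ) := by
      rw [← map_pow, hnF]; simp
    have h4 : φ (s : F) ≠ 0 := by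
      rw [Ne, map_eq_zero]; exact hs0F
    rw [← h3]; positivity
  have hposZ : 0 < n := by exact_mod_cast hpos
  have hnsq : ¬ IsSquare n := by
    rintro ⟨k, hk⟩
    have h3 : ((s : F) - k) * ((s : F) + k) = 0 := by
      have : (s : F) ^ 2 = (k : F) * k := by rw [hnF, hk]; push_cast; ring
      linear_combination this
    have h4 : σ (s : F) = s := by
      rcases mul_eq_zero.mp h3 with h | h
      · have : (s : F) = (k : F) := by linear_combination h
        rw [this]; simp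
      · have : (s : F) = -(k : F) := by linear_combination h
        rw [this]; simp
    rw [hσs] at h4
    apply hs0F
    have : (2 : F) * (s : F) = 0 := by linear_combination -h4
    rcases mul_eq_zero.mp this with h | h
    · norm_num at h
    · exact h
  obtain ⟨D, rfl⟩ := Int.eq_ofNat_of_zero_le hposZ.le
  refine ⟨D, s, ?_, hnsq, by simpa using hn, hσs, hs0⟩
  have h5 : D ≠ 1 := by
    rintro rfl
    exact hnsq ⟨1, by norm_num⟩
  have h6 : 0 < D := by exact_mod_cast hposZ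
  omega

/-- split Pell conic over a quadratic field: all integral points are rational. -/
theorem split_points {F : Type} [Field F] [NumberField F]
    (σ : F ≃ₐ[ℚ] F) (hσσ : ∀ z, σ (σ z) = z)
    (hfix : ∀ z, σ z = z → ∃ q : ℚ, z = algebraMap ℚ F q)
    (D : ℕ) (s : 𝓞 F) (hsD : s ^ 2 = (D : 𝓞 F)) (hσs : σ (s : F) = - (s : F)) (hs0 : s ≠ 0)
    (x y : 𝓞 F) (h : (1 + 3 * x) ^ 2 - (D : 𝓞 F) * y ^ 2 = 1) :
    ∃ a b : ℤ, x = (a : 𝓞 F) ∧ y = (b : 𝓞 F) := by
  set c : 𝓞 F ≃+* 𝓞 F := RingOfIntegers.mapRingEquiv σ.toRingEquiv with hc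
  have hcv : ∀ z : 𝓞 F, ((c z : 𝓞 F) : F) = σ (z : F) := fun z => rfl
  have hcc : ∀ z : 𝓞 F, c (c z) = z := fun z => RingOfIntegers.ext (by rw [hcv, hcv, hσσ])
  have hint : ∀ z : 𝓞 F, c z = z → ∃ n : ℤ, z = (n : 𝓞 F) := by
    intro z hz
    obtain ⟨q, hq⟩ := hfix (z : F) (by rw [← hcv, hz])
    exact int_of_rat z q hq
  have hcs : c s = -s := RingOfIntegers.ext (by rw [hcv, hσs]; simp)
  set X : 𝓞 F := 1 + 3 * x with hX
  have hc3 : c (3 : 𝓞 F) = 3 := map_ofNat c 3
  have hcX : c X = 1 + 3 * c x := by rw [hX, map_add, map_mul, map_one, hc3]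
  set u : 𝓞 F := X + y * s with hu
  set v : 𝓞 F := X - y * s with hv
  have huv : u * v = 1 := by
    rw [hu, hv]
    linear_combination h - y ^ 2 * hsD
  have hcu : c u = c X - c y * s := by rw [hu, map_add, map_mul, hcs]; ring
  have hcv' : c v = c X + c y * s := by rw [hv, map_sub, map_mul, hcs]; ring
  have hcuv : c u * c v = 1 := by rw [← map_mul, huv, map_one]
  obtain ⟨n, hn⟩ := hint (u * c u) (by rw [map_mul, hcc]; ring)
  obtain ⟨m, hm⟩ := hint (v * c v) (by rw [map_mul, hcc]; ring)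
  have hnm : n * m = 1 := by
    have h3 : ((n * m : ℤ) : 𝓞 F) = ((1 : ℤ) : 𝓞 F) := by
      push_cast
      rw [← hn, ← hm]
      linear_combination (u * v) * hcuv + huv
    exact_mod_cast h3
  have hn1 : n = 1 ∨ n = -1 := Int.isUnit_iff.mp (IsUnit.of_mul_eq_one m hnm)
  have key : ∀ ε : 𝓞 F, ε * ε = 1 → u * c u = ε → c X = ε * X ∧ c y = ε * y := by
    intro ε hε hε2
    have h3 : c u = ε * v := by
      linear_combination -(c u) * huv + v * hε2
    have h4 : c v = ε * u := by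
      have h5 : ε * v * c v = 1 := by rw [← h3]; exact hcuv
      linear_combination (ε * u) * h5 - (ε * ε * c v) * huv - (c v) * hε
    have h2 : (2 : 𝓞 F) ≠ 0 := by norm_num
    constructor
    · apply mul_left_cancel₀ h2
      rw [hcu] at h3; rw [hcv'] at h4
      rw [hv] at h3; rw [hu] at h4
      linear_combination h3 + h4
    · apply mul_left_cancel₀ (mul_ne_zero h2 hs0)
      rw [hcu] at h3; rw [hcv'] at h4
      rw [hv] at h3; rw [hu] at h4
      linear_combination h4 - h3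
  rcases hn1 with h1 | h1
  · obtain ⟨ha, hb⟩ := key 1 (by ring) (by rw [hn, h1]; simp)
    have hx : c x = x := by
      have h3 : (3 : 𝓞 F) ≠ 0 := by norm_num
      apply mul_left_cancel₀ h3
      rw [hcX, hX] at ha
      linear_combination ha
    obtain ⟨a, ha'⟩ := hint x hx
    obtain ⟨b, hb'⟩ := hint y (by rw [hb]; ring)
    exact ⟨a, b, ha', hb'⟩
  · exfalso
    obtain ⟨ha, -⟩ := key (-1) (by ring) (by rw [hn, h1]; simp)
    apply no_third (x + c x)
    rw [hcX, hX] at ha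
    linear_combination ha

/-- The fields of the theorem. -/
def Good (K : Type) [Field K] [NumberField K] : Prop :=
  Module.finrank ℚ K = 2 ∨ (Module.finrank ℚ K = 4 ∧ IsCMField K)

/-- real quadratic fields. -/
theorem real_case {F : Type} [Field F] [NumberField F] (h2 : Module.finrank ℚ F = 2)
    (φ : F →+* ℝ) : ∃ D : ℕ, 1 < D ∧ ¬ IsSquare (D : ℤ) ∧
      ∀ x y : 𝓞 F, (1 + 3 * x) ^ 2 - (D : 𝓞 F) * y ^ 2 = 1 →
        ∃ a b : ℤ, x = (a : 𝓞 F) ∧ y = (b : 𝓞 F) := by
  obtain ⟨σ, h1, hσσ, hfix⟩ := exists_conj h2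
  obtain ⟨D, s, hD, hsq, hsD, hσs, hs0⟩ := exists_sqrt φ σ h1 hσσ hfix
  exact ⟨D, hD, hsq, fun x y h => split_points σ hσσ hfix D s hsD hσs hs0 x y h⟩

/-- imaginary quadratic fields: every `D > 1` works. -/
theorem imaginary_case {K : Type} [Field K] [NumberField K] (h2 : Module.finrank ℚ K = 2)
    [IsTotallyComplex K] (D : ℕ) (hD : 1 < D) (x y : 𝓞 K)
    (h : (1 + 3 * x) ^ 2 - (D : 𝓞 K) * y ^ 2 = 1) :
    ∃ a b : ℤ, x = (a : 𝓞 K) ∧ y = (b : 𝓞 K) := by
  have : Algebra.IsQuadraticExtension ℚ K := ⟨h2⟩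
  have : IsCMField K := IsCMField.ofCMExtension ℚ K
  obtain ⟨hx, hy⟩ := cm_fixed D hD x y h
  have h1 : Module.finrank ℚ (maximalRealSubfield K) = 1 := by
    have h3 := Module.finrank_mul_finrank ℚ (maximalRealSubfield K) K
    rw [h2, Algebra.IsQuadraticExtension.finrank_eq_two (maximalRealSubfield K) K] at h3
    omega
  have hrat : ∀ z : K, IsCMField.complexConj K z = z → ∃ q : ℚ, z = algebraMap ℚ K q := by
    intro z hz
    have hz' : z ∈ maximalRealSubfield K := (IsCMField.complexConj_eq_self_iff K z).mp hz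
    obtain ⟨q, hq⟩ := (finrank_eq_one_iff_of_nonzero' (1 : maximalRealSubfield K)
      one_ne_zero).mp h1 ⟨z, hz'⟩
    refine ⟨q, ?_⟩
    have := congrArg (fun w : maximalRealSubfield K => (w : K)) hq
    simp only at this
    rw [← this]
    rw [Algebra.smul_def, mul_one]
    rfl
  obtain ⟨q, hq⟩ := hrat _ hx
  obtain ⟨q', hq'⟩ := hrat _ hy
  obtain ⟨a, ha⟩ := int_of_rat x q hq
  obtain ⟨b, hb⟩ := int_of_rat y q' hq'
  exact ⟨a, b, ha, hb⟩

/-- quartic CM fields. -/
theorem quartic_case {K : Type} [Field K] [NumberField K] (h4 : Module.finrank ℚ K = 4)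
    [IsCMField K] : ∃ D : ℕ, 1 < D ∧ ¬ IsSquare (D : ℤ) ∧
      ∀ x y : 𝓞 K, (1 + 3 * x) ^ 2 - (D : 𝓞 K) * y ^ 2 = 1 →
        ∃ a b : ℤ, x = (a : 𝓞 K) ∧ y = (b : 𝓞 K) := by
  have h1 : Module.finrank ℚ (maximalRealSubfield K) = 2 := by
    have h3 := Module.finrank_mul_finrank ℚ (maximalRealSubfield K) K
    rw [h4, Algebra.IsQuadraticExtension.finrank_eq_two (maximalRealSubfield K) K] at h3
    omega
  obtain ⟨w⟩ : Nonempty (InfinitePlace (maximalRealSubfield K)) := inferInstance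
  obtain ⟨D, hD, hsq, hall⟩ := real_case h1
    (InfinitePlace.embedding_of_isReal (IsTotallyReal.isReal w))
  refine ⟨D, hD, hsq, fun x y h => ?_⟩
  obtain ⟨hx, hy⟩ := cm_fixed D hD x y h
  obtain ⟨x', hx'⟩ := (IsCMField.RingOfIntegers.complexConj_eq_self_iff K x).mp hx
  obtain ⟨y', hy'⟩ := (IsCMField.RingOfIntegers.complexConj_eq_self_iff K y).mp hy
  have hinj : Function.Injective (algebraMap (𝓞 (maximalRealSubfield K)) K) :=
    FaithfulSMul.algebraMap_injective _ _
  have hK : (1 + 3 * (x : K)) ^ 2 - (D : K) * (y : K) ^ 2 = 1 := by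
    have := congrArg (algebraMap (𝓞 K) K) h
    simp only [map_sub, map_pow, map_add, map_mul, map_one, map_natCast] at this
    rw [map_ofNat] at this
    exact this
  have h' : (1 + 3 * x') ^ 2 - (D : 𝓞 (maximalRealSubfield K)) * y' ^ 2 = 1 := by
    apply hinj
    simp only [map_sub, map_pow, map_add, map_mul, map_one, map_natCast]
    rw [map_ofNat, hx', hy']
    exact hK
  obtain ⟨a, b, ha, hb⟩ := hall x' y' h'
  refine ⟨a, b, ?_, ?_⟩
  · apply RingOfIntegers.ext
    rw [← hx', ha]; simp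
  · apply RingOfIntegers.ext
    rw [← hy', hb]; simp

/-- the arithmetic heart. -/
theorem exists_D (K : Type) [Field K] [NumberField K] (hK : Good K) :
    ∃ D : ℕ, 1 < D ∧ ¬ IsSquare (D : ℤ) ∧
      ∀ x y : 𝓞 K, (1 + 3 * x) ^ 2 - (D : 𝓞 K) * y ^ 2 = 1 →
        ∃ a b : ℤ, x = (a : 𝓞 K) ∧ y = (b : 𝓞 K) := by
  rcases hK with h2 | ⟨h4, hCM⟩
  · by_cases hc : ∀ w : InfinitePlace K, w.IsComplex
    · have : IsTotallyComplex K := ⟨hc⟩
      refine ⟨6, by norm_num, ?_, fun x y h => imaginary_case h2 6 (by norm_num) x y h⟩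
      rintro ⟨k, hk⟩
      have h1 : k ≤ 2 := by by_contra hcon; push Not at hcon; push_cast at hk; nlinarith
      have h3 : -2 ≤ k := by by_contra hcon; push Not at hcon; push_cast at hk; nlinarith
      interval_cases k <;> norm_num at hk
    · push Not at hc
      obtain ⟨w, hw⟩ := hc
      exact real_case h2
        (InfinitePlace.embedding_of_isReal (InfinitePlace.not_isComplex_iff_isReal.mp hw))
  · exact quartic_case h4

end Pool.Agent.W242.PellConic
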