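import Mathlib
import Pool.Agent.W242.PellB

set_option autoImplicit false

open NumberField AlgebraicGeometry CategoryTheory MvPolynomial

namespace Pool.Agent.W242.PellConic

/-- the conic has infinitely many integral points, for every nonsquare `D`. -/
theorem infinite_points (D : ℕ) (hD : 1 < D) (hsq : ¬ IsSquare (D : ℤ)) :
    Set.Infinite {p : ℤ × ℤ | (1 + 3 * p.1) ^ 2 - (D : ℤ) * p.2 ^ 2 = 1} := by
  have hd : (0 : ℤ) < 9 * D := by positivity
  have hns : ¬ IsSquare (9 * (D : ℤ)) := by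
    rintro ⟨k, hk⟩
    apply hsq
    have h3 : (3 : ℤ) ∣ k := by
      have : (3 : ℤ) ∣ k * k := ⟨3 * D, by rw [← hk]; ring⟩
      exact (Int.prime_three.dvd_or_dvd this).elim id id
    obtain ⟨j, rfl⟩ := h3
    exact ⟨j, by linarith [hk]⟩
  obtain ⟨a, ha⟩ := Pell.IsFundamental.exists_of_not_isSquare hd hns
  have hmono := ha.y_strictMono
  let f : ℕ → ℤ × ℤ := fun n =>
    (6 * D * ((a ^ ((n : ℤ) + 1)).y) ^ 2, 6 * (a ^ ((n : ℤ) + 1)).x * (a ^ ((n : ℤ) + 1)).y)
  have hpos : ∀ n : ℕ, 0 < (a ^ ((n : ℤ) + 1)).y := by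
    intro n
    have h0 : (a ^ (0 : ℤ)).y = 0 := by simp
    have := hmono (show (0 : ℤ) < (n : ℤ) + 1 by positivity)
    simp only at this
    rw [h0] at this
    exact this
  have hinj : Function.Injective f := by
    intro m n hmn
    have h1 : 6 * (D : ℤ) * ((a ^ ((m : ℤ) + 1)).y) ^ 2 = 6 * D * ((a ^ ((n : ℤ) + 1)).y) ^ 2 :=
      congrArg Prod.fst hmn
    have h2 : ((a ^ ((m : ℤ) + 1)).y) ^ 2 = ((a ^ ((n : ℤ) + 1)).y) ^ 2 := by
      have h6 : (6 * (D : ℤ)) ≠ 0 := by positivity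
      exact mul_left_cancel₀ h6 h1
    have h3 : (a ^ ((m : ℤ) + 1)).y = (a ^ ((n : ℤ) + 1)).y := by
      have h4 := hpos m
      have h5 := hpos n
      nlinarith [sq_nonneg ((a ^ ((m : ℤ) + 1)).y - (a ^ ((n : ℤ) + 1)).y)]
    have h4 := hmono.injective h3
    have h5 : (m : ℤ) = n := by linarith
    exact_mod_cast h5
  refine Set.infinite_of_injective_forall_mem hinj ?_
  intro n
  simp only [Set.mem_ofPred_eq, f]
  have h := (a ^ ((n : ℤ) + 1)).prop
  linear_combination (36 * (D : ℤ) * ((a ^ ((n : ℤ) + 1)).y) ^ 2 ) * (-h)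

/-- the polynomial of the conic. -/
noncomputable def P (D : ℕ) : MvPolynomial (Fin 2) ℤ :=
  (1 + 3 * X 0) ^ 2 - (D : MvPolynomial (Fin 2) ℤ) * X 1 ^ 2 - 1

/-- its coordinate ring. -/
abbrev A (D : ℕ) : Type := MvPolynomial (Fin 2) ℤ ⧸ Ideal.span {P D}

/-- points from ring maps. -/
theorem point_eq {R : Type} [CommRing R] (D : ℕ) (h : A D →+* R) :
    (1 + 3 * h (Ideal.Quotient.mk _ (X 0))) ^ 2
      - (D : R) * (h (Ideal.Quotient.mk _ (X 1))) ^ 2 = 1 := by
  have h1 : (Ideal.Quotient.mk (Ideal.span {P D})) (P D) = 0 :=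
    Ideal.Quotient.eq_zero_iff_mem.mpr (Ideal.subset_span rfl)
  have h2 : (h.comp (Ideal.Quotient.mk (Ideal.span {P D}))) (P D) = 0 := by
    rw [RingHom.comp_apply, h1, map_zero]
  change (1 + 3 * (h.comp (Ideal.Quotient.mk (Ideal.span {P D}))) (X 0)) ^ 2
      - (D : R) * ((h.comp (Ideal.Quotient.mk (Ideal.span {P D}))) (X 1)) ^ 2 = 1
  generalize h.comp (Ideal.Quotient.mk (Ideal.span {P D})) = k at h2 ⊢
  simp only [P, map_sub, map_pow, map_add, map_mul, map_one, map_natCast, map_ofNat] at h2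
  linear_combination h2

/-- ring maps from points. -/
noncomputable def toHom {R : Type} [CommRing R] (D : ℕ) (x y : R)
    (h : (1 + 3 * x) ^ 2 - (D : R) * y ^ 2 = 1) : A D →+* R :=
  Ideal.Quotient.lift (Ideal.span {P D}) (eval₂Hom (Int.castRingHom R) ![x, y]) (by
    intro z hz
    obtain ⟨w, rfl⟩ := Ideal.mem_span_singleton'.mp hz
    rw [map_mul]
    have : (eval₂Hom (Int.castRingHom R) ![x, y]) (P D) = 0 := by
      simp only [P, map_sub, map_pow, map_add, map_mul, map_one, map_natCast, map_ofNat,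
        coe_eval₂Hom, eval₂_X, Matrix.cons_val_zero, Matrix.cons_val_one]
      linear_combination h
    rw [this, mul_zero])

theorem toHom_X0 {R : Type} [CommRing R] (D : ℕ) (x y : R)
    (h : (1 + 3 * x) ^ 2 - (D : R) * y ^ 2 = 1) :
    toHom D x y h (Ideal.Quotient.mk _ (X 0)) = x := by
  simp [toHom]

theorem toHom_X1 {R : Type} [CommRing R] (D : ℕ) (x y : R)
    (h : (1 + 3 * x) ^ 2 - (D : R) * y ^ 2 = 1) :
    toHom D x y h (Ideal.Quotient.mk _ (X 1)) = y := by
  simp [toHom]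

theorem hom_ext {R : Type} [CommRing R] (D : ℕ) (f g : A D →+* R)
    (h0 : f (Ideal.Quotient.mk _ (X 0)) = g (Ideal.Quotient.mk _ (X 0)))
    (h1 : f (Ideal.Quotient.mk _ (X 1)) = g (Ideal.Quotient.mk _ (X 1))) : f = g := by
  apply Ideal.Quotient.ringHom_ext
  apply MvPolynomial.ringHom_ext
  · intro r
    have : ∀ k : A D →+* R, k (Ideal.Quotient.mk _ (C r)) = (r : R) := by
      intro k
      have : (C r : MvPolynomial (Fin 2) ℤ) = ((r : ℤ) : MvPolynomial (Fin 2) ℤ) := by
        simp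
      rw [this]
      simp
    simp only [RingHom.comp_apply]
    rw [this f, this g]
  · intro i
    fin_cases i
    · exact h0
    · exact h1

/-- **The conic as a scheme**: it is of finite type with infinitely many integral points. -/
theorem scheme_basic (D : ℕ) (hD : 1 < D) (hsq : ¬ IsSquare (D : ℤ)) :
    LocallyOfFiniteType (Spec.map (CommRingCat.ofHom (algebraMap ℤ (A D)))) ∧
    QuasiCompact (Spec.map (CommRingCat.ofHom (algebraMap ℤ (A D)))) ∧
    Infinite (Spec (CommRingCat.of ℤ) ⟶ Spec (CommRingCat.of (A D))) := by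
  refine ⟨?_, inferInstance, ?_⟩
  · rw [HasRingHomProperty.Spec_iff (P := @LocallyOfFiniteType)]
    change (algebraMap ℤ (A D)).FiniteType
    rw [RingHom.finiteType_algebraMap]
    infer_instance
  · have hinf : Infinite {p : ℤ × ℤ // (1 + 3 * p.1) ^ 2 - (D : ℤ) * p.2 ^ 2 = 1} :=
      (infinite_points D hD hsq).to_subtype
    refine Infinite.of_injective
      (fun p : {p : ℤ × ℤ // (1 + 3 * p.1) ^ 2 - (D : ℤ) * p.2 ^ 2 = 1} =>
        (Spec.map (CommRingCat.ofHom (toHom D p.1.1 p.1.2 (by simpa using p.2))) :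
          Spec (CommRingCat.of ℤ) ⟶ Spec (CommRingCat.of (A D)))) ?_
    intro p q hpq
    have h1 := Spec.map_injective hpq
    have h2 := congrArg CommRingCat.Hom.hom h1
    simp only [CommRingCat.hom_ofHom] at h2
    have h3 := congrArg (fun k : A D →+* ℤ => k (Ideal.Quotient.mk _ (X 0))) h2
    have h4 := congrArg (fun k : A D →+* ℤ => k (Ideal.Quotient.mk _ (X 1))) h2
    simp only [toHom_X0, toHom_X1] at h3 h4
    exact Subtype.ext (Prod.ext h3 h4)

/-- the points of the conic do not grow over `K`. -/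
theorem scheme_bij (K : Type) [Field K] [NumberField K] (D : ℕ)
    (hall : ∀ x y : 𝓞 K, (1 + 3 * x) ^ 2 - (D : 𝓞 K) * y ^ 2 = 1 →
        ∃ a b : ℤ, x = (a : 𝓞 K) ∧ y = (b : 𝓞 K)) :
    Function.Bijective (fun g : Spec (CommRingCat.of ℤ) ⟶ Spec (CommRingCat.of (A D)) =>
      Spec.map (CommRingCat.ofHom (algebraMap ℤ (𝓞 K))) ≫ g) := by
  have hinjZ : Function.Injective (algebraMap ℤ (𝓞 K)) := FaithfulSMul.algebraMap_injective _ _
  constructor
  · intro g1 g2 h
    obtain ⟨k1, rfl⟩ := Spec.map_surjective g1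
    obtain ⟨k2, rfl⟩ := Spec.map_surjective g2
    simp only [← Spec.map_comp] at h
    have h1 := Spec.map_injective h
    have h2 : (algebraMap ℤ (𝓞 K)).comp k1.hom = (algebraMap ℤ (𝓞 K)).comp k2.hom := by
      have := congrArg CommRingCat.Hom.hom h1
      simpa using this
    congr 1
    apply CommRingCat.hom_ext
    apply RingHom.ext
    intro z
    have h3 := congrArg (fun k => k z) h2
    simp only [RingHom.comp_apply] at h3
    exact hinjZ h3
  · intro g
    obtain ⟨k, rfl⟩ := Spec.map_surjective g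
    obtain ⟨a, b, ha, hb⟩ := hall _ _ (point_eq D k.hom)
    have hab : (1 + 3 * a) ^ 2 - (D : ℤ) * b ^ 2 = 1 := by
      have := point_eq D k.hom
      rw [ha, hb] at this
      apply hinjZ
      simp only [map_sub, map_pow, map_add, map_mul, map_one, map_natCast, map_ofNat]
      simpa using this
    refine ⟨Spec.map (CommRingCat.ofHom (toHom D a b (by simpa using hab))), ?_⟩
    simp only [← Spec.map_comp]
    congr 1
    apply CommRingCat.hom_ext
    rw [CommRingCat.hom_comp, CommRingCat.hom_ofHom, CommRingCat.hom_ofHom]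
    apply hom_ext
    · rw [RingHom.comp_apply, toHom_X0, ha]; simp
    · rw [RingHom.comp_apply, toHom_X1, hb]; simp

/-- one conic for a real quadratic field and for all its totally complex quadratic extensions. -/
theorem uniform_real (F : Type) [Field F] [NumberField F] (h2 : Module.finrank ℚ F = 2)
    [IsTotallyReal F] :
    ∃ D : ℕ, 1 < D ∧ ¬ IsSquare (D : ℤ) ∧
      (∀ x y : 𝓞 F, (1 + 3 * x) ^ 2 - (D : 𝓞 F) * y ^ 2 = 1 →
        ∃ a b : ℤ, x = (a : 𝓞 F) ∧ y = (b : 𝓞 F)) ∧
      ∀ (K : Type) [Field K] [NumberField K] [IsTotallyComplex K] [Algebra F K],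
        Module.finrank F K = 2 →
        ∀ x y : 𝓞 K, (1 + 3 * x) ^ 2 - (D : 𝓞 K) * y ^ 2 = 1 →
          ∃ a b : ℤ, x = (a : 𝓞 K) ∧ y = (b : 𝓞 K) := by
  obtain ⟨w⟩ : Nonempty (InfinitePlace F) := inferInstance
  obtain ⟨D, hD, hsq, hall⟩ := real_case h2
    (InfinitePlace.embedding_of_isReal (IsTotallyReal.isReal w))
  refine ⟨D, hD, hsq, hall, ?_⟩
  intro K _ _ _ _ hFK x y h
  have : Algebra.IsQuadraticExtension F K := ⟨hFK⟩
  have : IsCMField K := IsCMField.ofCMExtension F K
  obtain ⟨hx, hy⟩ := cm_fixed D hD x y h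
  obtain ⟨x', hx'⟩ := (IsCMField.RingOfIntegers.complexConj_eq_self_iff K x).mp hx
  obtain ⟨y', hy'⟩ := (IsCMField.RingOfIntegers.complexConj_eq_self_iff K y).mp hy
  have hinj : Function.Injective (algebraMap (𝓞 (maximalRealSubfield K)) K) :=
    FaithfulSMul.algebraMap_injective _ _
  have hK : (1 + 3 * (x : K)) ^ 2 - (D : K) * (y : K) ^ 2 = 1 := by
    have := congrArg (algebraMap (𝓞 K) K) h
    simp only [map_sub, map_pow, map_add, map_mul, map_one, map_natCast] at this
    rw [map_ofNat] at this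
    exact this
  have h' : (1 + 3 * x') ^ 2 - (D : 𝓞 (maximalRealSubfield K)) * y' ^ 2 = 1 := by
    apply hinj
    simp only [map_sub, map_pow, map_add, map_mul, map_one, map_natCast]
    rw [map_ofNat, hx', hy']
    exact hK
  let e : 𝓞 (maximalRealSubfield K) ≃+* 𝓞 F :=
    RingOfIntegers.mapRingEquiv (CMExtension.equivMaximalRealSubfield F K).symm
  have h'' : (1 + 3 * e x') ^ 2 - (D : 𝓞 F) * (e y') ^ 2 = 1 := by
    have := congrArg e h'
    simp only [map_sub, map_pow, map_add, map_mul, map_one, map_natCast] at this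
    rw [map_ofNat] at this
    exact this
  obtain ⟨a, b, ha, hb⟩ := hall _ _ h''
  have ha' : x' = (a : 𝓞 (maximalRealSubfield K)) := by
    apply e.injective; rw [ha]; simp
  have hb' : y' = (b : 𝓞 (maximalRealSubfield K)) := by
    apply e.injective; rw [hb]; simp
  refine ⟨a, b, ?_, ?_⟩
  · apply RingOfIntegers.ext
    rw [← hx', ha']; simp
  · apply RingOfIntegers.ext
    rw [← hy', hb']; simp

end Pool.Agent.W242.PellConic
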