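import Mathlib
import Pool.Agent.W242.SevenTab

set_option autoImplicit false

namespace Pool.Agent.W242.SevenFifths

theorem get1 (s k : ℕ) (hs : s < 21) (hk : k < 5) : chk1 s k = true := by
  have h := all1
  rw [List.all_eq_true] at h
  have h2 := h s (List.mem_range.mpr hs)
  rw [List.all_eq_true] at h2
  exact h2 k (List.mem_range.mpr hk)

theorem get2 (s x : ℕ) (hs : s < 21) (hx : x < 429) : chk2 s x = true := by
  have h := all2
  rw [List.all_eq_true] at h
  have h2 := h s (List.mem_range.mpr hs)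
  rw [List.all_eq_true] at h2
  exact h2 x (List.mem_range.mpr hx)

theorem len_le_one {l : List ℕ} (h : l.length ≤ 1) {a b : ℕ} (ha : a ∈ l) (hb : b ∈ l) :
    a = b := by
  match l, h with
  | [], _ => simp at ha
  | [c], _ => simp at ha hb; rw [ha, hb]
  | _ :: _ :: _, h => simp at h

/-- no digit periodicity. -/
theorem no_period (a : ℕ → ℤ) (i d : ℕ) (hd : 0 < d)
    (hr : ∀ t, 5 * a (i + d + t + 1) - 7 * a (i + d + t) = 5 * a (i + t + 1) - 7 * a (i + t))
    (hmono : ∀ n, i ≤ n → a n < a (n + 1)) : False := by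
  have h1 : ∀ t, (5 : ℤ) ^ t * (a (i + d + t) - a (i + t)) = 7 ^ t * (a (i + d) - a i) := by
    intro t
    induction t with
    | zero => simp
    | succ t ih =>
      have := hr t
      rw [show i + d + (t + 1) = i + d + t + 1 by ring, show i + (t + 1) = i + t + 1 by ring,
        pow_succ, pow_succ]
      linear_combination 7 * ih + 5 ^ t * this
  have h2 : ∀ t : ℕ, (5 : ℤ) ^ t ∣ (a (i + d) - a i) := by
    intro t
    have h3 : (5 : ℤ) ^ t ∣ 7 ^ t * (a (i + d) - a i) := ⟨_, (h1 t).symm⟩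
    have h4 : IsCoprime ((5 : ℤ) ^ t) (7 ^ t) := by
      apply IsCoprime.pow
      exact ⟨3, -2, by norm_num⟩
    exact h4.dvd_of_dvd_mul_left h3
  have h5 : a (i + d) - a i = 0 := by
    by_contra hne
    obtain ⟨t, ht⟩ : ∃ t : ℕ, (a (i + d) - a i).natAbs < 5 ^ t :=
      ⟨_, Nat.lt_pow_self (by norm_num)⟩
    have h6 := Int.natAbs_dvd_natAbs.mpr (h2 t)
    rw [Int.natAbs_pow] at h6
    have h7 := Nat.le_of_dvd (Int.natAbs_pos.mpr hne) h6
    simp at h7
    omega
  have h8 : ∀ e : ℕ, 0 < e → a i < a (i + e) := by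
    intro e he
    induction e with
    | zero => omega
    | succ e ih =>
      rcases Nat.eq_zero_or_pos e with h0 | h0
      · subst h0; exact hmono i le_rfl
      · exact lt_trans (ih h0) (hmono (i + e) (by omega))
  have := h8 d hd
  omega

/-- The dynamical core. -/
theorem core (a : ℕ → ℤ) (e : ℕ → ℝ) (he0 : ∀ n, 0 ≤ e n) (he1 : ∀ n, e n < 1)
    (hrel : ∀ n, 5 * ((a (n + 1) : ℝ) + e (n + 1)) = 7 * ((a n : ℝ) + e n))
    (hmono : ∀ n, a n < a (n + 1))
    (h2 : ∀ n, ¬ (2 : ℤ) ∣ a n) (h3 : ∀ n, ¬ (3 : ℤ) ∣ a n)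
    (h7 : ∀ n, ¬ (7 : ℤ) ∣ a n) (h11 : ∀ n, ¬ (11 : ℤ) ∣ a n) (h13 : ∀ n, ¬ (13 : ℤ) ∣ a n) :
    False := by
  -- the digits
  have hdig : ∀ n, ∃ k, k < 5 ∧ 5 * a (n + 1) - 7 * a n = dig.getD k 0 := by
    intro n
    have hr1 : (-5 : ℝ) < ((5 * a (n + 1) - 7 * a n : ℤ) : ℝ) := by
      push_cast
      linarith [hrel n, he0 n, he1 (n + 1)]
    have hr2 : ((5 * a (n + 1) - 7 * a n : ℤ) : ℝ) < 7 := by
      push_cast
      linarith [hrel n, he1 n, he0 (n + 1)]
    have hr3 : (-5 : ℤ) < 5 * a (n + 1) - 7 * a n := by exact_mod_cast hr1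
    have hr4 : 5 * a (n + 1) - 7 * a n < 7 := by exact_mod_cast hr2
    have hev : (5 * a (n + 1) - 7 * a n) % 2 = 0 := by
      have e1 := h2 n
      have e2 := h2 (n + 1)
      omega
    have hne : 5 * a (n + 1) - 7 * a n ≠ 0 := by
      have e3 := h7 (n + 1)
      omega
    have hcase : 5 * a (n + 1) - 7 * a n = -4 ∨ 5 * a (n + 1) - 7 * a n = -2 ∨
        5 * a (n + 1) - 7 * a n = 2 ∨ 5 * a (n + 1) - 7 * a n = 4 ∨
        5 * a (n + 1) - 7 * a n = 6 := by
      generalize 5 * a (n + 1) - 7 * a n = r at hr3 hr4 hev hne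
      omega
    rcases hcase with h | h | h | h | h
    · exact ⟨0, by norm_num, by rw [h]; rfl⟩
    · exact ⟨1, by norm_num, by rw [h]; rfl⟩
    · exact ⟨2, by norm_num, by rw [h]; rfl⟩
    · exact ⟨3, by norm_num, by rw [h]; rfl⟩
    · exact ⟨4, by norm_num, by rw [h]; rfl⟩
  choose K hK5 hKr using hdig
  -- the states
  let s : ℕ → ℕ := fun n => Nat.rec (if a 0 % 3 = 1 then 5 else 14) (fun m t => nxt t (K m)) n
  have hs0 : s 0 = if a 0 % 3 = 1 then 5 else 14 := rfl
  have hsS : ∀ n, s (n + 1) = nxt (s n) (K n) := fun n => rfl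
  have inv : ∀ n, s n < 21 ∧ a n % 3 = md.getD (s n) 0 ∧ ((lo.getD (s n) 0 : ℤ) : ℝ) ≤ 245 * e n ∧
      245 * e n ≤ ((hi.getD (s n) 0 : ℤ) : ℝ) := by
    intro n
    induction n with
    | zero =>
      have e3 := h3 0
      rw [hs0]
      split_ifs with hc
      · refine ⟨by norm_num, by rw [hc]; rfl, ?_, ?_⟩
        · have : lo.getD 5 0 = 0 := rfl
          rw [this]; push_cast; linarith [he0 0]
        · have : hi.getD 5 0 = 245 := rfl
          rw [this]; push_cast; linarith [he1 0]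
      · refine ⟨by norm_num, ?_, ?_, ?_⟩
        · have : md.getD 14 0 = 2 := rfl
          rw [this]; omega
        · have : lo.getD 14 0 = 0 := rfl
          rw [this]; push_cast; linarith [he0 0]
        · have : hi.getD 14 0 = 245 := rfl
          rw [this]; push_cast; linarith [he1 0]
    | succ n ih =>
      obtain ⟨i1, i2, i3, i4⟩ := ih
      have hc := get1 (s n) (K n) i1 (hK5 n)
      have hr := hKr n
      rw [hsS]
      unfold chk1 at hc
      simp only [Bool.or_eq_true, Bool.and_eq_true, decide_eq_true_eq, beq_iff_eq] at hc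
      have hres : a (n + 1) % 3 = (7 * md.getD (s n) 0 + dig.getD (K n) 0) * 2 % 3 := by
        rw [← i2, ← hr]; omega
      have hrR : (5 : ℝ) * a (n + 1) - 7 * a n = ((dig.getD (K n) 0 : ℤ) : ℝ) := by
        have : (((5 * a (n + 1) - 7 * a n : ℤ)) : ℝ) = ((dig.getD (K n) 0 : ℤ) : ℝ) := by rw [hr]
        push_cast at this
        exact this
      have hA : ((7 * lo.getD (s n) 0 - 245 * dig.getD (K n) 0 : ℤ) : ℝ) ≤ 5 * (245 * e (n + 1)) := by
        push_cast
        linarith [hrel n]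
      have hB : 5 * (245 * e (n + 1)) ≤ ((7 * hi.getD (s n) 0 - 245 * dig.getD (K n) 0 : ℤ) : ℝ) := by
        push_cast
        linarith [hrel n]
      rcases hc with ((hc | hc) | hc) | ⟨⟨⟨c1, c2⟩, c3⟩, c4⟩
      · exfalso
        have e3 := h3 (n + 1)
        rw [← hres] at hc
        omega
      · exfalso
        have : ((1225 : ℤ) : ℝ) ≤ ((7 * lo.getD (s n) 0 - 245 * dig.getD (K n) 0 : ℤ) : ℝ) := by
          exact_mod_cast hc
        push_cast at this hA
        linarith [he1 (n + 1)]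
      · exfalso
        have : ((7 * hi.getD (s n) 0 - 245 * dig.getD (K n) 0 : ℤ) : ℝ) < ((0 : ℤ) : ℝ) := by
          exact_mod_cast hc
        push_cast at this hB
        linarith [he0 (n + 1)]
      · refine ⟨c1, by rw [c2]; exact hres, ?_, ?_⟩
        · rcases c3 with c | c
          · have : ((5 * lo.getD (nxt (s n) (K n)) 0 : ℤ) : ℝ) ≤
                ((7 * lo.getD (s n) 0 - 245 * dig.getD (K n) 0 : ℤ) : ℝ) := by exact_mod_cast c
            have h9 := le_trans this hA
            push_cast at h9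
            linarith
          · have : ((lo.getD (nxt (s n) (K n)) 0 : ℤ) : ℝ) ≤ ((0 : ℤ) : ℝ) := by exact_mod_cast c
            push_cast at this
            linarith [he0 (n + 1)]
        · rcases c4 with c | c
          · have : ((7 * hi.getD (s n) 0 - 245 * dig.getD (K n) 0 : ℤ) : ℝ) ≤
                ((5 * hi.getD (nxt (s n) (K n)) 0 : ℤ) : ℝ) := by exact_mod_cast c
            have h9 := le_trans hB this
            push_cast at h9
            linarith
          · have : ((245 : ℤ) : ℝ) ≤ ((hi.getD (nxt (s n) (K n)) 0 : ℤ) : ℝ) := by exact_mod_cast c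
            push_cast at this
            linarith [he1 (n + 1)]
  -- the residues
  let x : ℕ → ℕ := fun n => (a n % 429).toNat
  have hxZ : ∀ n, ((x n : ℕ) : ℤ) = a n % 429 := by
    intro n
    exact Int.toNat_of_nonneg (Int.emod_nonneg _ (by norm_num))
  have hx429 : ∀ n, x n < 429 := by
    intro n
    have := Int.emod_lt_of_pos (a n) (show (0 : ℤ) < 429 by norm_num)
    have h9 := hxZ n
    omega
  have hxres : ∀ n, res (x n) (K n) = x (n + 1) := by
    intro n
    unfold res
    rw [hxZ, ← hKr n]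
    have : (7 * (a n % 429) + (5 * a (n + 1) - 7 * a n)) * 86 % 429 = a (n + 1) % 429 := by omega
    rw [this]
  have hok : ∀ n, okres (x n) = true := by
    intro n
    have g1 := h3 n
    have g2 := h11 n
    have g3 := h13 n
    have g := hxZ n
    unfold okres
    simp only [Bool.and_eq_true, bne_iff_ne, ne_eq]
    refine ⟨⟨?_, ?_⟩, ?_⟩ <;> omega
  have hedge : ∀ n, edge (s n) (x n) (K n) = true := by
    intro n
    unfold edge
    rw [hxres, hok, Bool.and_true, ← hsS, decide_eq_true_eq]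
    exact (inv (n + 1)).1
  let R : ℕ → ℕ := fun n => rank (s n) (x n)
  have hchk : ∀ n, (∀ k, k < 5 → edge (s n) (x n) k = true →
        rank (nxt (s n) k) (res (x n) k) ≤ rank (s n) (x n)) ∧
      ((List.range 5).filter (fun k => keep (s n) (x n) k)).length ≤ 1 := by
    intro n
    have hc := get2 (s n) (x n) (inv n).1 (hx429 n)
    unfold chk2 at hc
    rw [hok n] at hc
    have h9 : ((x n : ℤ) % 3 == md.getD (s n) 0) = true := by
      rw [beq_iff_eq, ← (inv n).2.1, hxZ]
      omega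
    rw [h9] at hc
    simp only [Bool.not_true, Bool.false_or, Bool.and_eq_true, decide_eq_true_eq,
      List.all_eq_true, List.mem_range, Bool.or_eq_true, Bool.not_eq_true'] at hc
    refine ⟨?_, hc.2⟩
    intro k hk hek
    rcases hc.1 k hk with h | h
    · rw [hek] at h; exact absurd h (by simp)
    · exact h
  have hRanti : ∀ n, R (n + 1) ≤ R n := by
    intro n
    have := (hchk n).1 (K n) (hK5 n) (hedge n)
    rw [hxres, ← hsS] at this
    exact this
  have hRanti' : ∀ m n, m ≤ n → R n ≤ R m := by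
    intro m n hmn
    induction n, hmn using Nat.le_induction with
    | base => exact le_rfl
    | succ n _ ih => exact le_trans (hRanti n) ih
  obtain ⟨M, hM⟩ : ∃ M, ∀ m, R M ≤ R m := by
    have hne : (Set.range R).Nonempty := ⟨R 0, 0, rfl⟩
    obtain ⟨M, hM⟩ := Nat.sInf_mem hne
    exact ⟨M, fun m => by rw [hM]; exact Nat.sInf_le ⟨m, rfl⟩⟩
  have hRM : ∀ m, M ≤ m → R m = R M := fun m hm => le_antisymm (hRanti' M m hm) (hM m)
  have hkeep : ∀ m, M ≤ m → keep (s m) (x m) (K m) = true := by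
    intro m hm
    unfold keep
    rw [hedge m, Bool.true_and, beq_iff_eq, hxres, ← hsS]
    have e1 : R (m + 1) = R m := by rw [hRM m hm, hRM (m + 1) (by omega)]
    exact e1
  have huniq : ∀ m n, M ≤ m → M ≤ n → s m = s n → x m = x n → K m = K n := by
    intro m n hm hn h1 h4
    have hl := (hchk m).2
    apply len_le_one hl
    · rw [List.mem_filter, List.mem_range]
      exact ⟨hK5 m, hkeep m hm⟩
    · rw [List.mem_filter, List.mem_range]
      refine ⟨hK5 n, ?_⟩
      rw [h1, h4]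
      exact hkeep n hn
  -- pigeonhole
  let f : ℕ → Fin 21 × Fin 429 := fun m => (⟨s (M + m), (inv _).1⟩, ⟨x (M + m), hx429 _⟩)
  obtain ⟨i, j, hij, hf⟩ := Finite.exists_ne_map_eq_of_infinite f
  have main : ∀ i j : ℕ, i < j → f i = f j → False := by
    intro i j hij hf
    have hs : s (M + i) = s (M + j) := by
      have := congrArg (fun p : Fin 21 × Fin 429 => (p.1 : ℕ)) hf
      exact this
    have hx : x (M + i) = x (M + j) := by
      have := congrArg (fun p : Fin 21 × Fin 429 => (p.2 : ℕ)) hf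
      exact this
    have hall : ∀ t, s (M + i + t) = s (M + j + t) ∧ x (M + i + t) = x (M + j + t) := by
      intro t
      induction t with
      | zero => exact ⟨hs, hx⟩
      | succ t ih =>
        have hk := huniq (M + i + t) (M + j + t) (by omega) (by omega) ih.1 ih.2
        constructor
        · rw [← add_assoc, ← add_assoc, hsS, hsS, ih.1, hk]
        · rw [← add_assoc, ← add_assoc, ← hxres, ← hxres, ih.2, hk]
    refine no_period a (M + i) (j - i) (by omega) ?_ (fun n _ => hmono n)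
    intro t
    have hk := huniq (M + i + t) (M + j + t) (by omega) (by omega) (hall t).1 (hall t).2
    rw [show M + i + (j - i) + t = M + j + t by omega, hKr, hKr, hk]
  rcases lt_or_gt_of_ne hij with h | h
  · exact main i j h hf
  · exact main j i h hf.symm

/-- For every `ξ > 0` infinitely many of the integer parts of `ξ (7/5)^n` have a prime factor
`≤ 13`. -/
theorem small_factor (ξ : ℝ) (hξ : 0 < ξ) (N : ℕ) : ∃ n, N ≤ n ∧
    ∃ p : ℕ, (p = 2 ∨ p = 3 ∨ p = 7 ∨ p = 11 ∨ p = 13) ∧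
      (p : ℤ) ∣ ⌊ξ * (7 / 5 : ℝ) ^ n⌋ := by
  by_contra hcon
  push Not at hcon
  -- large enough terms
  obtain ⟨N1, hN1⟩ : ∃ N1 : ℕ, (3 : ℝ) / ξ < (7 / 5 : ℝ) ^ N1 :=
    pow_unbounded_of_one_lt _ (by norm_num)
  have hbig : ∀ n, 3 < ξ * (7 / 5 : ℝ) ^ (N + N1 + n) := by
    intro n
    have h1 : (7 / 5 : ℝ) ^ N1 ≤ (7 / 5 : ℝ) ^ (N + N1 + n) :=
      pow_le_pow_right₀ (by norm_num) (by omega)
    have h2 : 3 < ξ * (7 / 5 : ℝ) ^ N1 := by
      rw [div_lt_iff₀ hξ] at hN1
      linarith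
    nlinarith
  have hstep : ∀ n, 5 * (ξ * (7 / 5 : ℝ) ^ (N + N1 + (n + 1))) =
      7 * (ξ * (7 / 5 : ℝ) ^ (N + N1 + n)) := by
    intro n
    rw [show N + N1 + (n + 1) = N + N1 + n + 1 by ring, pow_succ]
    ring
  refine core (fun n => ⌊ξ * (7 / 5 : ℝ) ^ (N + N1 + n)⌋)
    (fun n => Int.fract (ξ * (7 / 5 : ℝ) ^ (N + N1 + n)))
    (fun n => Int.fract_nonneg _) (fun n => Int.fract_lt_one _) ?_ ?_ ?_ ?_ ?_ ?_ ?_
  · intro n
    have h1 := Int.floor_add_fract (ξ * (7 / 5 : ℝ) ^ (N + N1 + (n + 1)))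
    have h2 := Int.floor_add_fract (ξ * (7 / 5 : ℝ) ^ (N + N1 + n))
    rw [h1, h2]
    exact hstep n
  · intro n
    have h1 : ξ * (7 / 5 : ℝ) ^ (N + N1 + n) + 1 ≤ ξ * (7 / 5 : ℝ) ^ (N + N1 + (n + 1)) := by
      have := hstep n
      have := hbig n
      linarith
    have h2 : ⌊ξ * (7 / 5 : ℝ) ^ (N + N1 + n)⌋ + 1 ≤ ⌊ξ * (7 / 5 : ℝ) ^ (N + N1 + (n + 1))⌋ := by
      rw [← Int.floor_add_one]
      exact Int.floor_le_floor h1
    exact h2
  · intro n; exact_mod_cast hcon _ (by omega) 2 (by tauto)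
  · intro n; exact_mod_cast hcon _ (by omega) 3 (by tauto)
  · intro n; exact_mod_cast hcon _ (by omega) 7 (by tauto)
  · intro n; exact_mod_cast hcon _ (by omega) 11 (by tauto)
  · intro n; exact_mod_cast hcon _ (by omega) 13 (by tauto)

end Pool.Agent.W242.SevenFifths
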