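import Mathlib

namespace Pool.Agent.W242.HS

/-- Solutions: the unit fractions of the interval from a to b together with
one over m add up to N. -/
def Sol (a b m N : ℕ) : Prop :=
  1 ≤ a ∧ a ≤ b ∧ 1 ≤ m ∧ ∑ n ∈ Finset.Icc a b, (1 / (n : ℚ)) + 1 / (m : ℚ) = (N : ℚ)

lemma term1 (x2 y1 y2 : ℝ) (hy1 : 0 < y1) (hy : y1 ≤ y2) (hx2 : 0 < x2)
    (h : 4 * x2 * (y2 - y1) ≤ y1 * y2) :
    x2 * y1 * ((1 / 6) * (1 / y1 ^ 2 - 1 / y2 ^ 2)) ≤ 1 / 12 := by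
  have hy2 : 0 < y2 := lt_of_lt_of_le hy1 hy
  have e : x2 * y1 * ((1 / 6) * (1 / y1 ^ 2 - 1 / y2 ^ 2))
      = (x2 * (y2 - y1)) * (y2 + y1) / (6 * y1 * y2 ^ 2) := by
    field_simp
    ring
  rw [e, div_le_iff₀ (by positivity)]
  have h1 : (4 * x2 * (y2 - y1)) * (y2 + y1) ≤ (y1 * y2) * (2 * y2) := by
    apply mul_le_mul h (by linarith) (by positivity) (by positivity)
  nlinarith [h1]

lemma term2 (x1 x2 y1 : ℝ) (hy1 : 0 < y1) (h1 : x2 ≤ 3 * x1) (h2 : 2 * y1 ≤ x1)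
    (h3 : 2 * y1 ≤ x2) :
    x2 * y1 * ((1 / 6) * (1 / x1 ^ 2 + 1 / x2 ^ 2)) ≤ 1 / 3 := by
  have hx1 : 0 < x1 := by linarith
  have hx2 : 0 < x2 := by linarith
  have e1 : x2 * y1 * (1 / x1 ^ 2) ≤ 3 / 2 := by
    rw [mul_one_div, div_le_iff₀ (by positivity)]
    have : x2 * y1 ≤ (3 * x1) * (x1 / 2) :=
      mul_le_mul h1 (by linarith) hy1.le (by positivity)
    nlinarith
  have e2 : x2 * y1 * (1 / x2 ^ 2) ≤ 1 / 2 := by
    rw [mul_one_div, div_le_iff₀ (by positivity)]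
    nlinarith
  nlinarith

lemma term3 (x2 y1 y2 : ℝ) (hy1 : 0 < y1) (hy : y1 ≤ y2) (hx2 : 0 < x2)
    (h : 10 * x2 ≤ y1 ^ 3) :
    x2 * y1 * ((1 / 6) * (1 / y1 ^ 4 + 1 / y2 ^ 4)) ≤ 1 / 30 := by
  have hy2 : 0 < y2 := lt_of_lt_of_le hy1 hy
  have e0 : 1 / y2 ^ 4 ≤ 1 / y1 ^ 4 := by
    apply one_div_le_one_div_of_le (by positivity)
    exact pow_le_pow_left₀ hy1.le hy 4
  have e1 : x2 * y1 * ((1 / 6) * (1 / y1 ^ 4 + 1 / y2 ^ 4))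
      ≤ x2 * y1 * ((1 / 6) * (1 / y1 ^ 4 + 1 / y1 ^ 4)) := by
    apply mul_le_mul_of_nonneg_left _ (by positivity)
    linarith
  refine e1.trans ?_
  have e2 : x2 * y1 * ((1 / 6) * (1 / y1 ^ 4 + 1 / y1 ^ 4)) = x2 / (3 * y1 ^ 3) := by
    field_simp
    ring
  rw [e2, div_le_iff₀ (by positivity)]
  linarith

lemma term4 (u m1 m2 : ℝ) (hu : 0 < u) (h1 : 60 * u ≤ m1) (h2 : 60 * u ≤ m2) :
    u * (1 / m1 + 1 / m2) ≤ 1 / 30 := by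
  have hm1 : 0 < m1 := by linarith
  have hm2 : 0 < m2 := by linarith
  have e1 : u * (1 / m1) ≤ 1 / 60 := by
    rw [mul_one_div, div_le_iff₀ hm1]; linarith
  have e2 : u * (1 / m2) ≤ 1 / 60 := by
    rw [mul_one_div, div_le_iff₀ hm2]; linarith
  nlinarith

/-- upper bound for the difference of the two defects -/
lemma eps_small (x1 x2 y1 y2 m1 m2 e1 e2 : ℝ) (hy1 : 0 < y1) (hy : y1 ≤ y2)
    (hm1 : 0 < m1) (hm2 : 0 < m2)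
    (hA : 4 * x2 * (y2 - y1) ≤ y1 * y2) (hB : x2 ≤ 3 * x1) (hC : 2 * y1 ≤ x1)
    (hD : 2 * y1 ≤ x2) (hE : 10 * x2 ≤ y1 ^ 3) (hF : 60 * (x2 * y1) ≤ m1)
    (hG : 60 * (x2 * y1) ≤ m2)
    (H1 : |e1 + 1 / m1 - (1 / 6) * (1 / y1 ^ 2 - 1 / x1 ^ 2)| ≤ (1 / 6) * (1 / y1 ^ 4))
    (H2 : |e2 + 1 / m2 - (1 / 6) * (1 / y2 ^ 2 - 1 / x2 ^ 2)| ≤ (1 / 6) * (1 / y2 ^ 4)) :
    x2 * y1 * |e1 - e2| < 1 / 2 := by
  have hx1 : 0 < x1 := by linarith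
  have hx2 : 0 < x2 := by linarith
  have hy2 : 0 < y2 := by linarith
  have hu : 0 < x2 * y1 := by positivity
  have t1 := term1 x2 y1 y2 hy1 hy hx2 hA
  have t2 := term2 x1 x2 y1 hy1 hB hC hD
  have t3 := term3 x2 y1 y2 hy1 hy hx2 hE
  have t4 := term4 (x2 * y1) m1 m2 hu hF hG
  rw [abs_le] at H1 H2
  have p1 : 0 < 1 / m1 := by positivity
  have p2 : 0 < 1 / m2 := by positivity
  have p3 : 0 < 1 / x1 ^ 2 := by positivity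
  have p4 : 0 < 1 / x2 ^ 2 := by positivity
  have p5 : 1 / y2 ^ 2 ≤ 1 / y1 ^ 2 :=
    one_div_le_one_div_of_le (by positivity) (pow_le_pow_left₀ hy1.le hy 2)
  have key : |e1 - e2| ≤ (1 / 6) * (1 / y1 ^ 2 - 1 / y2 ^ 2)
      + (1 / 6) * (1 / x1 ^ 2 + 1 / x2 ^ 2) + (1 / 6) * (1 / y1 ^ 4 + 1 / y2 ^ 4)
      + (1 / m1 + 1 / m2) := by
    rw [abs_le]
    constructor
    · linarith [H1.1, H2.2]
    · linarith [H1.2, H2.1]
  have := mul_le_mul_of_nonneg_left key hu.le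
  have e : x2 * y1 * ((1 / 6) * (1 / y1 ^ 2 - 1 / y2 ^ 2)
      + (1 / 6) * (1 / x1 ^ 2 + 1 / x2 ^ 2) + (1 / 6) * (1 / y1 ^ 4 + 1 / y2 ^ 4)
      + (1 / m1 + 1 / m2)) = x2 * y1 * ((1 / 6) * (1 / y1 ^ 2 - 1 / y2 ^ 2))
      + x2 * y1 * ((1 / 6) * (1 / x1 ^ 2 + 1 / x2 ^ 2))
      + x2 * y1 * ((1 / 6) * (1 / y1 ^ 4 + 1 / y2 ^ 4))
      + x2 * y1 * (1 / m1 + 1 / m2) := by ring
  rw [e] at this
  linarith

/-- the two fractions with odd terms are equal -/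
lemma det_zero (X1 X2 Y1 Y2 : ℤ) (o1 : Odd X1) (o2 : Odd X2) (o3 : Odd Y1) (o4 : Odd Y2)
    (p1 : 0 < X1) (p2 : 0 < X2) (p3 : 0 < Y1) (p4 : 0 < Y2) (N : ℝ)
    (hbig : (2 : ℝ) ≤ X2 * Y1)
    (h : (X2 : ℝ) * Y1 * |(Real.log X1 - Real.log Y1 - N) - (Real.log X2 - Real.log Y2 - N)|
      < 1 / 2) : X1 * Y2 = X2 * Y1 := by
  by_contra hne
  have q1 : (0 : ℝ) < X1 := by exact_mod_cast p1
  have q2 : (0 : ℝ) < X2 := by exact_mod_cast p2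
  have q3 : (0 : ℝ) < Y1 := by exact_mod_cast p3
  have q4 : (0 : ℝ) < Y2 := by exact_mod_cast p4
  have hu : (0 : ℝ) < X2 * Y1 := by positivity
  have hv : (0 : ℝ) < X1 * Y2 := by positivity
  have e : (Real.log X1 - Real.log Y1 - N) - (Real.log X2 - Real.log Y2 - N)
      = Real.log ((X1 * Y2 : ℝ) / (X2 * Y1)) := by
    rw [Real.log_div hv.ne' hu.ne', Real.log_mul q1.ne' q4.ne', Real.log_mul q2.ne' q3.ne']
    ring
  rw [e] at h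
  have hodd1 : Odd (X1 * Y2) := o1.mul o4
  have hodd2 : Odd (X2 * Y1) := o2.mul o3
  have heven : Even (X1 * Y2 - X2 * Y1) := hodd1.sub_odd hodd2
  obtain ⟨k, hk⟩ := heven
  have hk0 : k ≠ 0 := by
    rintro rfl
    apply hne
    linarith
  have hrpos : (0 : ℝ) < (X1 * Y2 : ℝ) / (X2 * Y1) := by positivity
  rcases lt_or_gt_of_ne hk0 with hneg | hpos
  · have h1 : X1 * Y2 ≤ X2 * Y1 - 2 := by linarith
    have h1' : (X1 * Y2 : ℝ) ≤ X2 * Y1 - 2 := by exact_mod_cast h1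
    have h2 := Real.log_le_sub_one_of_pos hrpos
    have h3 : (X1 * Y2 : ℝ) / (X2 * Y1) - 1 ≤ -2 / (X2 * Y1) := by
      rw [div_sub_one hu.ne']
      apply div_le_div_of_nonneg_right _ hu.le
      linarith
    have h4 : 2 / (X2 * Y1 : ℝ) ≤ |Real.log ((X1 * Y2 : ℝ) / (X2 * Y1))| := by
      have : Real.log ((X1 * Y2 : ℝ) / (X2 * Y1)) ≤ -(2 / (X2 * Y1 : ℝ)) := by
        rw [← neg_div]; linarith
      have h5 := neg_abs_le (Real.log ((X1 * Y2 : ℝ) / (X2 * Y1)))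
      have h6 := le_abs_self (-Real.log ((X1 * Y2 : ℝ) / (X2 * Y1)))
      rw [abs_neg] at h6
      linarith
    have h7 := mul_le_mul_of_nonneg_left h4 hu.le
    rw [mul_div_cancel₀ _ hu.ne'] at h7
    linarith
  · have h1 : X2 * Y1 + 2 ≤ X1 * Y2 := by linarith
    have h1' : (X2 * Y1 : ℝ) + 2 ≤ X1 * Y2 := by exact_mod_cast h1
    have h2 := Real.one_sub_inv_le_log_of_pos hrpos
    have h3 : 1 / (X2 * Y1 : ℝ) ≤ 1 - ((X1 * Y2 : ℝ) / (X2 * Y1))⁻¹ := by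
      rw [inv_div]
      have h4 : (X2 * Y1 : ℝ) / (X1 * Y2) ≤ (X2 * Y1 : ℝ) / (X2 * Y1 + 2) :=
        div_le_div_of_nonneg_left hu.le (by positivity) h1'
      have h5 : 1 / (X2 * Y1 : ℝ) ≤ 1 - (X2 * Y1 : ℝ) / (X2 * Y1 + 2) := by
        have h6 : 1 - (X2 * Y1 : ℝ) / (X2 * Y1 + 2) = 2 / (X2 * Y1 + 2) := by
          field_simp
          ring
        rw [h6, div_le_div_iff₀ hu (by positivity)]
        linarith
      linarith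
    have h4 : 1 / (X2 * Y1 : ℝ) ≤ |Real.log ((X1 * Y2 : ℝ) / (X2 * Y1))| :=
      (h3.trans h2).trans (le_abs_self _)
    have h7 := mul_le_mul_of_nonneg_left h4 hu.le
    rw [mul_div_cancel₀ _ hu.ne'] at h7
    linarith

/-- equal fractions are impossible -/
lemma no_equal (x1 x2 y1 y2 m1 m2 e : ℝ) (hy1 : 9000 ≤ y1) (hy : y1 + 2 ≤ y2)
    (hm1 : y1 ^ 4 ≤ 1024 * m1) (hm2 : 0 < m2) (hC : 2 * y1 ≤ x1)
    (heq : x1 * y2 = x2 * y1)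
    (H1 : |e + 1 / m1 - (1 / 6) * (1 / y1 ^ 2 - 1 / x1 ^ 2)| ≤ (1 / 6) * (1 / y1 ^ 4))
    (H2 : |e + 1 / m2 - (1 / 6) * (1 / y2 ^ 2 - 1 / x2 ^ 2)| ≤ (1 / 6) * (1 / y2 ^ 4)) :
    False := by
  have hy1p : 0 < y1 := by linarith
  have hy2p : 0 < y2 := by linarith
  have hx1 : 0 < x1 := by linarith
  have hx2' : x2 = x1 * y2 / y1 := by field_simp; linarith
  have hx2 : 0 < x2 := by rw [hx2']; positivity
  have hm1p : 0 < m1 := by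
    have : 0 < y1 ^ 4 := by positivity
    linarith
  rw [abs_le] at H1 H2
  have p2 : 0 < 1 / m2 := by positivity
  -- relation of the squares
  have r1 : 1 / x1 ^ 2 - 1 / x2 ^ 2 = (y1 / x1) ^ 2 * (1 / y1 ^ 2 - 1 / y2 ^ 2) := by
    rw [hx2']
    field_simp
  have r2 : (y1 / x1) ^ 2 ≤ 1 / 4 := by
    have : y1 / x1 ≤ 1 / 2 := by
      rw [div_le_div_iff₀ hx1 (by norm_num)]; linarith
    have h0 : 0 ≤ y1 / x1 := by positivity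
    nlinarith
  have r3 : 1 / y1 ^ 3 ≤ 1 / y1 ^ 2 - 1 / y2 ^ 2 := by
    have h1 : 1 / y2 ^ 2 ≤ 1 / (y1 + 2) ^ 2 :=
      one_div_le_one_div_of_le (by positivity) (pow_le_pow_left₀ (by positivity) hy 2)
    have h2 : 1 / y1 ^ 3 ≤ 1 / y1 ^ 2 - 1 / (y1 + 2) ^ 2 := by
      have h3 : 1 / y1 ^ 2 - 1 / (y1 + 2) ^ 2 = (4 * y1 + 4) / (y1 ^ 2 * (y1 + 2) ^ 2) := by
        field_simp
        ring
      rw [h3, div_le_div_iff₀ (by positivity) (by positivity)]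
      have h4 : y1 ^ 2 * (y1 + 2) ^ 2 ≤ y1 ^ 2 * ((4 * y1 + 4) * y1) := by
        apply mul_le_mul_of_nonneg_left _ (by positivity)
        nlinarith
      nlinarith [h4]
    linarith
  have r4 : 1 / y2 ^ 4 ≤ 1 / y1 ^ 4 :=
    one_div_le_one_div_of_le (by positivity) (pow_le_pow_left₀ hy1p.le (by linarith) 4)
  have r5 : 1 / m1 ≤ 1024 / y1 ^ 4 := by
    rw [div_le_div_iff₀ hm1p (by positivity)]
    linarith
  have r6 : 1 / y1 ^ 3 ≥ 9000 * (1 / y1 ^ 4) := by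
    have : 1 / y1 ^ 3 = y1 * (1 / y1 ^ 4) := by field_simp
    rw [this]
    apply mul_le_mul_of_nonneg_right hy1 (by positivity)
  have r7 : 0 < 1 / y1 ^ 4 := by positivity
  have r8 : (1024 : ℝ) / y1 ^ 4 = 1024 * (1 / y1 ^ 4) := by ring
  have r9 : (y1 / x1) ^ 2 * (1 / y1 ^ 2 - 1 / y2 ^ 2) ≤ (1 / 4) * (1 / y1 ^ 2 - 1 / y2 ^ 2) := by
    apply mul_le_mul_of_nonneg_right r2
    have : 0 < 1 / y1 ^ 3 := by positivity
    linarith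
  rw [r8] at r5
  nlinarith [H1.1, H1.2, H2.1, H2.2]

end Pool.Agent.W242.HS
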