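import Pool.Agent.W242.HSWrap

namespace Pool.Agent.W242.HS

lemma sol_b_le (hT : Tel) (a b m N : ℕ) (h : Sol a b m N) :
    (b:ℝ) ≤ Real.exp (N + 1) * a := by
  have e := sol_real h
  have t := hT a b h.1 h.2.1
  rw [abs_le] at t
  have ha : (1:ℝ) ≤ a := by exact_mod_cast h.1
  have hb : (1:ℝ) ≤ b := by exact_mod_cast h.1.trans h.2.1
  have hm : 0 < 1/(m:ℝ) := by
    have : (1:ℝ) ≤ m := by exact_mod_cast h.2.2.1
    positivity
  have p1 : 1/(2*(a:ℝ)-1)^2 ≤ 1 := by
    rw [div_le_one (by have : 0 < 2*(a:ℝ)-1 := by linarith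
                       positivity)]
    nlinarith
  have p2 : 1/(2*(a:ℝ)-1)^4 ≤ 1 := by
    have h1 : 1 ≤ 2*(a:ℝ)-1 := by linarith
    rw [div_le_one (by positivity)]
    exact one_le_pow₀ h1
  have p3 : 0 < 1/(2*(b:ℝ)+1)^2 := by positivity
  have p4 : 0 < 1/(2*(b:ℝ)+1)^4 := by positivity
  have h1 : Real.log (2*(b:ℝ)+1) ≤ (N + 1) + Real.log (2*(a:ℝ)-1) := by
    linarith [t.2]
  have h2 : (N:ℝ) + 1 + Real.log (2*(a:ℝ)-1) = Real.log (Real.exp (N+1) * (2*(a:ℝ)-1)) := by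
    rw [Real.log_mul (Real.exp_pos _).ne' (by linarith), Real.log_exp]
  rw [h2, Real.log_le_log_iff (by positivity)
    (mul_pos (Real.exp_pos _) (by linarith))] at h1
  have h3 := Real.exp_pos ((N:ℝ)+1)
  nlinarith

lemma gap_fixed (hT : Tel) (B : ℕ) (hB : 10000 ≤ B) (hM : Mlow B) (N K : ℕ)
    (hK : Real.exp (N + 1) ≤ K) (a b m a' b' m' : ℕ) (h : Sol a b m N) (h' : Sol a' b' m' N)
    (ha : B ≤ a) (haK : 2 * K ≤ a) (hlt : a < a') : a ≤ 24 * K * (a' - a) := by
  have hK1 : 1 ≤ K := by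
    have h0 := Real.exp_pos ((N:ℝ)+1)
    have : (0:ℝ) < K := lt_of_lt_of_le h0 hK
    exact_mod_cast this
  by_cases hc : a' ≤ 2 * a
  · have hb1 : b ≤ K * a := by
      have h1 := sol_b_le hT a b m N h
      have h2 : (b:ℝ) ≤ K * a := h1.trans (mul_le_mul_of_nonneg_right hK (by positivity))
      exact_mod_cast h2
    have hb2 : b' ≤ K * a' := by
      have h1 := sol_b_le hT a' b' m' N h'
      have h2 : (b':ℝ) ≤ K * a' := h1.trans (mul_le_mul_of_nonneg_right hK (by positivity))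
      exact_mod_cast h2
    have hx : K * a' ≤ a ^ 2 := by nlinarith
    have g := sol_gap hT B hB hM (K * a') a b m a' b' m' N h h' ha hlt
      (hb1.trans (Nat.mul_le_mul_left _ hlt.le)) hb2 hx
    have g2 : a * a' ≤ (24 * K * (a' - a)) * a' := by
      calc a * a' ≤ 24 * (K * a') * (a' - a) := g
        _ = (24 * K * (a' - a)) * a' := by ring
    exact Nat.le_of_mul_le_mul_right g2 (by omega)
  · push Not at hc
    have h1 : a ≤ a' - a := by omega
    have h2 : 1 * (a' - a) ≤ 24 * K * (a' - a) := Nat.mul_le_mul_right _ (by omega)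
    omega

theorem per_N (hT : Tel) (B : ℕ) (hB : 10000 ≤ B) (hM : Mlow B) (N : ℕ) :
    ∃ C : ℝ, ∀ x : ℕ, 2 ≤ x →
      ({t : ℕ × ℕ × ℕ | Sol t.1 t.2.1 t.2.2 N ∧ t.2.1 ≤ x}.ncard : ℝ) ≤ C * Real.log x := by
  obtain ⟨K, hK⟩ := exists_nat_ge (Real.exp ((N:ℝ) + 1))
  set A := max B (2 * K) with hA
  set L : ℝ := 24 * K + 1 with hL
  have hLpos : 0 < L := by positivity
  set M0 : ℕ := A * (K * A + 1) with hM0
  refine ⟨(M0 + 1) / Real.log 2 + L, fun x hx => ?_⟩
  set F : Set (ℕ × ℕ × ℕ) := {t | Sol t.1 t.2.1 t.2.2 N ∧ t.2.1 ≤ x} with hF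
  set F1 : Set (ℕ × ℕ × ℕ) := {t | t ∈ F ∧ t.1 < A} with hF1
  set F2 : Set (ℕ × ℕ × ℕ) := {t | t ∈ F ∧ A ≤ t.1} with hF2
  have hxR : (2:ℝ) ≤ x := by exact_mod_cast hx
  have hlog2 : 0 < Real.log 2 := Real.log_pos (by norm_num)
  have hlogx : Real.log 2 ≤ Real.log x := Real.log_le_log (by norm_num) hxR
  have hunion : F = F1 ∪ F2 := by
    ext t
    simp only [hF1, hF2, Set.mem_union, Set.mem_setOf_eq]
    constructor
    · intro h
      rcases lt_or_ge t.1 A with h1 | h1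
      · exact Or.inl ⟨h, h1⟩
      · exact Or.inr ⟨h, h1⟩
    · rintro (h | h) <;> exact h.1
  -- first part
  have c1 : F1.ncard ≤ M0 := by
    have hmaps : ∀ t ∈ F1, (t.1, t.2.1) ∈ ((Finset.range A ×ˢ Finset.range (K * A + 1) :
        Finset (ℕ × ℕ)) : Set (ℕ × ℕ)) := by
      intro t ht
      rw [Finset.mem_coe, Finset.mem_product, Finset.mem_range, Finset.mem_range]
      refine ⟨ht.2, ?_⟩
      have h1 := sol_b_le hT t.1 t.2.1 t.2.2 N ht.1.1
      have h2 : (t.2.1:ℝ) ≤ K * t.1 := h1.trans (mul_le_mul_of_nonneg_right hK (by positivity))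
      have h3 : t.2.1 ≤ K * t.1 := by exact_mod_cast h2
      have h4 : K * t.1 ≤ K * A := Nat.mul_le_mul_left _ ht.2.le
      show t.2.1 < K * A + 1
      omega
    have hinj : Set.InjOn (fun t : ℕ × ℕ × ℕ => (t.1, t.2.1)) F1 := by
      intro t ht s hs hts
      simp only [Prod.mk.injEq] at hts
      obtain ⟨a, b, m⟩ := t
      obtain ⟨a', b', m'⟩ := s
      simp only at hts
      obtain ⟨rfl, rfl⟩ := hts
      have := sol_m_unique a b m m' N ht.1.1 hs.1.1
      rw [this]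
    have := Set.ncard_le_ncard_of_injOn (s := F1)
      (t := ((Finset.range A ×ˢ Finset.range (K * A + 1) : Finset (ℕ × ℕ)) : Set (ℕ × ℕ)))
      (fun t : ℕ × ℕ × ℕ => (t.1, t.2.1)) hmaps hinj (Finset.finite_toSet _)
    rw [Set.ncard_coe_finset, Finset.card_product, Finset.card_range, Finset.card_range] at this
    exact this
  have c2 : (F2.ncard : ℝ) ≤ L * Real.log x + 1 := by
    have hmaps : ∀ t ∈ F2, (⌊L * Real.log (t.1:ℝ)⌋₊) ∈
        ((Finset.range (⌊L * Real.log x⌋₊ + 1) : Finset ℕ) : Set ℕ) := by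
      intro t ht
      rw [Finset.mem_coe, Finset.mem_range]
      apply Nat.lt_succ_of_le
      apply Nat.floor_le_floor
      apply mul_le_mul_of_nonneg_left _ hLpos.le
      have h1 : t.1 ≤ x := ht.1.1.2.1.trans ht.1.2
      have h2 : 1 ≤ t.1 := ht.1.1.1
      apply Real.log_le_log
      · exact_mod_cast h2
      · exact_mod_cast h1
    have hsep : ∀ t ∈ F2, ∀ s ∈ F2, t.1 < s.1 →
        ⌊L * Real.log (t.1:ℝ)⌋₊ < ⌊L * Real.log (s.1:ℝ)⌋₊ := by
      intro t ht s hs hlt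
      have g := gap_fixed hT B hB hM N K hK t.1 t.2.1 t.2.2 s.1 s.2.1 s.2.2 ht.1.1 hs.1.1
        (le_trans (le_max_left _ _) ht.2) (le_trans (le_max_right _ _) ht.2) hlt
      have gR : (t.1:ℝ) ≤ 24 * K * (s.1 - t.1) := by
        have : ((t.1 : ℕ) : ℝ) ≤ ((24 * K * (s.1 - t.1) : ℕ) : ℝ) := by exact_mod_cast g
        rw [Nat.cast_mul, Nat.cast_mul, Nat.cast_sub hlt.le] at this
        simpa using this
      have ht1 : (0:ℝ) < t.1 := by
        have : 1 ≤ t.1 := ht.1.1.1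
        exact_mod_cast this
      have hs1 : (0:ℝ) < s.1 := by
        have : 1 ≤ s.1 := hs.1.1.1
        exact_mod_cast this
      have hr : (0:ℝ) < s.1 / t.1 := by positivity
      have h1 := Real.one_sub_inv_le_log_of_pos hr
      rw [Real.log_div hs1.ne' ht1.ne', inv_div] at h1
      have h2 : 1 ≤ L * (1 - (t.1:ℝ) / s.1) := by
        have e : L * (1 - (t.1:ℝ) / s.1) = L * (s.1 - t.1) / s.1 := by
          field_simp
        rw [e, le_div_iff₀ hs1, hL]
        linarith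
      have h3 : L * Real.log (t.1:ℝ) + 1 ≤ L * Real.log (s.1:ℝ) := by
        have := mul_le_mul_of_nonneg_left h1 hLpos.le
        linarith
      have h4 : 0 ≤ L * Real.log (t.1:ℝ) := by
        apply mul_nonneg hLpos.le
        apply Real.log_nonneg
        have : 1 ≤ t.1 := ht.1.1.1
        exact_mod_cast this
      have h5 : ⌊L * Real.log (t.1:ℝ)⌋₊ + 1 ≤ ⌊L * Real.log (s.1:ℝ)⌋₊ := by
        rw [← Nat.floor_add_one h4]
        exact Nat.floor_le_floor h3
      omega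
    have hinj : Set.InjOn (fun t : ℕ × ℕ × ℕ => ⌊L * Real.log (t.1:ℝ)⌋₊) F2 := by
      intro t ht s hs hts
      simp only at hts
      have e1 : t.1 = s.1 := by
        rcases lt_trichotomy t.1 s.1 with h | h | h
        · have := hsep t ht s hs h
          omega
        · exact h
        · have := hsep s hs t ht h
          omega
      obtain ⟨a, b, m⟩ := t
      obtain ⟨a', b', m'⟩ := s
      simp only at e1
      subst e1
      have hBa : B ≤ a := le_trans (le_max_left _ _) ht.2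
      have e2 := sol_b_unique B (by omega) hM a b m b' m' N ht.1.1 hs.1.1
        (hBa.trans ht.1.1.2.1) (hBa.trans hs.1.1.2.1)
      subst e2
      have := sol_m_unique a b m m' N ht.1.1 hs.1.1
      rw [this]
    have := Set.ncard_le_ncard_of_injOn (s := F2)
      (t := ((Finset.range (⌊L * Real.log x⌋₊ + 1) : Finset ℕ) : Set ℕ))
      (fun t : ℕ × ℕ × ℕ => ⌊L * Real.log (t.1:ℝ)⌋₊) hmaps hinj (Finset.finite_toSet _)
    rw [Set.ncard_coe_finset, Finset.card_range] at this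
    have h1 : (F2.ncard : ℝ) ≤ (⌊L * Real.log x⌋₊ : ℝ) + 1 := by exact_mod_cast this
    have h2 : ((⌊L * Real.log x⌋₊ : ℕ) : ℝ) ≤ L * Real.log x :=
      Nat.floor_le (mul_nonneg hLpos.le (by linarith))
    linarith
  have c3 : (F.ncard : ℝ) ≤ F1.ncard + F2.ncard := by
    rw [hunion]
    exact_mod_cast Set.ncard_union_le F1 F2
  have c1' : (F1.ncard : ℝ) ≤ M0 := by exact_mod_cast c1
  have c4 : (M0:ℝ) + 1 ≤ (M0 + 1) / Real.log 2 * Real.log x := by
    rw [div_mul_eq_mul_div, le_div_iff₀ hlog2]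
    apply mul_le_mul_of_nonneg_left hlogx (by positivity)
  rw [add_mul]
  linarith

end Pool.Agent.W242.HS
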