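import Pool.Agent.W242.HSCore

namespace Pool.Agent.W242.HS

/-- the telescoped estimate -/
def Tel : Prop := ∀ a b : ℕ, 1 ≤ a → a ≤ b →
  |Real.log (2*(b:ℝ)+1) - Real.log (2*(a:ℝ)-1) - ∑ n ∈ Finset.Icc a b, (1/(n:ℝ)) - (1/6)*(1/(2*(a:ℝ)-1)^2 - 1/(2*(b:ℝ)+1)^2)| ≤ (1/6)*(1/(2*(a:ℝ)-1)^4 - 1/(2*(b:ℝ)+1)^4)

/-- lower bound for m -/
def Mlow (B : ℕ) : Prop := ∀ a b m N : ℕ, Sol a b m N → B ≤ b → 2*a ≤ b ∧ b^4 ≤ 1024*m

lemma sol_real {a b m N : ℕ} (h : Sol a b m N) :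
    ∑ n ∈ Finset.Icc a b, (1/(n:ℝ)) + 1/(m:ℝ) = (N:ℝ) := by
  have h0 := congrArg (fun q : ℚ => (q : ℝ)) h.2.2.2
  push_cast at h0
  exact h0

lemma sol_m_unique (a b m m' N : ℕ) (h : Sol a b m N) (h' : Sol a b m' N) : m = m' := by
  have e1 := h.2.2.2
  have e2 := h'.2.2.2
  have e3 : (1:ℚ)/m = 1/m' := by linarith
  have hm : (m:ℚ) ≠ 0 := by
    have := h.2.2.1
    positivity
  have hm' : (m':ℚ) ≠ 0 := by
    have := h'.2.2.1
    positivity
  field_simp at e3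
  exact_mod_cast e3.symm

lemma sol_N_le (a b m N : ℕ) (h : Sol a b m N) : (N:ℝ) ≤ Real.log b + 3 := by
  have e := sol_real h
  have h1 : ∑ n ∈ Finset.Icc a b, (1/(n:ℝ)) ≤ ∑ n ∈ Finset.Icc 1 b, (1/(n:ℝ)) := by
    apply Finset.sum_le_sum_of_subset_of_nonneg
    · exact Finset.Icc_subset_Icc h.1 le_rfl
    · intros; positivity
  have h2 : ∑ n ∈ Finset.Icc 1 b, (1/(n:ℝ)) ≤ 1 + Real.log b := by
    have := harmonic_le_one_add_log b
    rw [harmonic_eq_sum_Icc] at this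
    push_cast at this
    simpa [one_div] using this
  have h3 : 1/(m:ℝ) ≤ 1 := by
    have : (1:ℝ) ≤ m := by exact_mod_cast h.2.2.1
    rw [div_le_one (by linarith)]
    exact this
  linarith

lemma sol_b_aux (B : ℕ) (hB : 100 ≤ B) (hM : Mlow B) (a b m b' m' N : ℕ) (h : Sol a b m N)
    (h' : Sol a b' m' N) (hb : B ≤ b) : ¬ (b < b') := by
  intro hlt
  have e1 := sol_real h
  have e2 := sol_real h'
  have hml := (hM a b m N h hb).2
  have hsub : Finset.Icc a (b+1) ⊆ Finset.Icc a b' := Finset.Icc_subset_Icc le_rfl hlt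
  have h1 : ∑ n ∈ Finset.Icc a (b+1), (1/(n:ℝ)) ≤ ∑ n ∈ Finset.Icc a b', (1/(n:ℝ)) := by
    apply Finset.sum_le_sum_of_subset_of_nonneg hsub
    intros; positivity
  rw [Finset.sum_Icc_succ_top (by have := h.2.1; omega)] at h1
  have hm' : 0 < 1/(m':ℝ) := by
    have : (1:ℝ) ≤ m' := by exact_mod_cast h'.2.2.1
    positivity
  have hm1 : (1:ℝ) ≤ m := by exact_mod_cast h.2.2.1
  have h2 : 1/((b:ℝ)+1) < 1/(m:ℝ) := by
    push_cast at h1
    linarith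
  rw [one_div_lt_one_div (by positivity) (by linarith)] at h2
  have h3 : m < b + 1 := by exact_mod_cast h2
  have hb100 : 100 ≤ b := by omega
  have h5 : 1024 * m ≤ 1024 * b := by omega
  have h6 : b ^ 4 ≤ 1024 * b := hml.trans h5
  have h7 : 100 ^ 3 * b ≤ b ^ 4 := by
    have : b ^ 4 = b ^ 3 * b := by ring
    rw [this]
    exact Nat.mul_le_mul_right _ (Nat.pow_le_pow_left hb100 3)
  omega

lemma sol_b_unique (B : ℕ) (hB : 100 ≤ B) (hM : Mlow B) (a b m b' m' N : ℕ) (h : Sol a b m N)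
    (h' : Sol a b' m' N) (hb : B ≤ b) (hb' : B ≤ b') : b = b' := by
  have h1 := sol_b_aux B hB hM a b m b' m' N h h' hb
  have h2 := sol_b_aux B hB hM a b' m' b m N h' h hb'
  omega

/-- the estimate for the defect of one solution -/
lemma sol_defect (hT : Tel) (a b m N : ℕ) (h : Sol a b m N) :
    |(Real.log (2*(b:ℝ)+1) - Real.log (2*(a:ℝ)-1) - N) + 1/(m:ℝ)
      - (1/6)*(1/(2*(a:ℝ)-1)^2 - 1/(2*(b:ℝ)+1)^2)| ≤ (1/6)*(1/(2*(a:ℝ)-1)^4) := by
  have e := sol_real h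
  have t := hT a b h.1 h.2.1
  have e2 : (Real.log (2*(b:ℝ)+1) - Real.log (2*(a:ℝ)-1) - N) + 1/(m:ℝ)
      - (1/6)*(1/(2*(a:ℝ)-1)^2 - 1/(2*(b:ℝ)+1)^2)
      = Real.log (2*(b:ℝ)+1) - Real.log (2*(a:ℝ)-1) - ∑ n ∈ Finset.Icc a b, (1/(n:ℝ)) - (1/6)*(1/(2*(a:ℝ)-1)^2 - 1/(2*(b:ℝ)+1)^2) := by
    rw [← e]; ring
  rw [e2]
  refine t.trans ?_
  have : 0 < 1/(2*(b:ℝ)+1)^4 := by positivity
  linarith

lemma sol_defect_small (hT : Tel) (a b m N : ℕ) (h : Sol a b m N) (ha : 100 ≤ a)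
    (hm : 100 ≤ m) :
    |Real.log (2*(b:ℝ)+1) - Real.log (2*(a:ℝ)-1) - N| ≤ 1/10 := by
  have d := sol_defect hT a b m N h
  rw [abs_le] at d
  have ha' : (100:ℝ) ≤ a := by exact_mod_cast ha
  have hb' : (100:ℝ) ≤ b := by
    have := h.2.1
    exact_mod_cast (ha.trans this)
  have hm' : (100:ℝ) ≤ m := by exact_mod_cast hm
  have p1 : 1/(m:ℝ) ≤ 1/100 := one_div_le_one_div_of_le (by norm_num) hm'
  have p1' : 0 < 1/(m:ℝ) := by positivity
  have p2 : 1/(2*(a:ℝ)-1)^2 ≤ 1/100 := by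
    apply one_div_le_one_div_of_le (by norm_num)
    nlinarith
  have p3 : 1/(2*(b:ℝ)+1)^2 ≤ 1/100 := by
    apply one_div_le_one_div_of_le (by norm_num)
    nlinarith
  have p4 : 1/(2*(a:ℝ)-1)^4 ≤ 1/100 := by
    apply one_div_le_one_div_of_le (by norm_num)
    have : (100:ℝ) ≤ (2*(a:ℝ)-1)^2 := by nlinarith
    nlinarith
  have p5 : 0 < 1/(2*(b:ℝ)+1)^2 := by positivity
  have p6 : 0 < 1/(2*(a:ℝ)-1)^2 := by
    have : 0 < 2*(a:ℝ)-1 := by linarith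
    positivity
  rw [abs_le]
  constructor <;> linarith [d.1, d.2]

/-- the gap principle -/
lemma sol_gap (hT : Tel) (B : ℕ) (hB : 10000 ≤ B) (hM : Mlow B)
    (x a b m a' b' m' N : ℕ) (h : Sol a b m N) (h' : Sol a' b' m' N) (ha : B ≤ a)
    (hlt : a < a') (hbx : b ≤ x) (hbx' : b' ≤ x) (hx : x ≤ a ^ 2) :
    a * a' ≤ 24 * x * (a' - a) := by
  have hab := h.2.1
  have hab' := h'.2.1
  by_contra hcon
  push Not at hcon
  have hM1 := hM a b m N h (by omega)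
  have hM2 := hM a' b' m' N h' (by omega)
  -- the second point is close to the first
  have hclose : a' < 2 * a := by
    by_contra hc
    push Not at hc
    have h1 : a' ≤ 2 * (a' - a) := by omega
    have h2 : a * a' ≤ x * (2 * (a' - a)) := Nat.mul_le_mul (by omega) h1
    have h3 : x * (2 * (a' - a)) ≤ 24 * x * (a' - a) := by nlinarith
    omega
  have haR : (10000:ℝ) ≤ a := by exact_mod_cast hB.trans ha
  have hltR : (a:ℝ) + 1 ≤ a' := by exact_mod_cast hlt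
  have hcloseR : (a':ℝ) + 1 ≤ 2 * a := by exact_mod_cast hclose
  have hbxR : (b:ℝ) ≤ x := by exact_mod_cast hbx
  have hbxR' : (b':ℝ) ≤ x := by exact_mod_cast hbx'
  have hxR : (x:ℝ) ≤ a ^ 2 := by exact_mod_cast hx
  have hb2 : 2 * (a:ℝ) ≤ b := by exact_mod_cast hM1.1
  have hb2' : 2 * (a':ℝ) ≤ b' := by exact_mod_cast hM2.1
  have hm : (b:ℝ) ^ 4 ≤ 1024 * m := by exact_mod_cast hM1.2
  have hm' : (b':ℝ) ^ 4 ≤ 1024 * m' := by exact_mod_cast hM2.2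
  have hconR : 24 * (x:ℝ) * (a' - a) < a * a' := by
    have : ((24 * x * (a' - a) : ℕ) : ℝ) < ((a * a' : ℕ) : ℝ) := by exact_mod_cast hcon
    rw [Nat.cast_mul, Nat.cast_mul, Nat.cast_mul, Nat.cast_sub hlt.le] at this
    simpa using this
  set y1 : ℝ := 2 * (a:ℝ) - 1 with hy1
  set y2 : ℝ := 2 * (a':ℝ) - 1 with hy2
  set x1 : ℝ := 2 * (b:ℝ) + 1 with hx1
  set x2 : ℝ := 2 * (b':ℝ) + 1 with hx2
  have hmpos : (0:ℝ) < m := by exact_mod_cast h.2.2.1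
  have hmpos' : (0:ℝ) < m' := by exact_mod_cast h'.2.2.1
  have hbR : (20000:ℝ) ≤ b := by linarith
  have hbR' : (20000:ℝ) ≤ b' := by linarith
  have hbsq : 1024 * (560:ℝ) * (b:ℝ) ^ 2 ≤ b ^ 4 := by
    have : (1024:ℝ) * 560 ≤ (b:ℝ) ^ 2 := by nlinarith
    nlinarith [mul_le_mul_of_nonneg_right this (sq_nonneg (b:ℝ))]
  have hbsq' : 1024 * (560:ℝ) * (b':ℝ) ^ 2 ≤ b' ^ 4 := by
    have : (1024:ℝ) * 560 ≤ (b':ℝ) ^ 2 := by nlinarith
    nlinarith [mul_le_mul_of_nonneg_right this (sq_nonneg (b':ℝ))]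
  have hmb : 560 * (b:ℝ) ^ 2 ≤ m := by nlinarith
  have hmb' : 560 * (b':ℝ) ^ 2 ≤ m' := by nlinarith
  have hm100 : 100 ≤ m := by
    have : (100:ℝ) ≤ m := by nlinarith
    exact_mod_cast this
  have hm100' : 100 ≤ m' := by
    have : (100:ℝ) ≤ m' := by nlinarith
    exact_mod_cast this
  have D1 := sol_defect hT a b m N h
  have D2 := sol_defect hT a' b' m' N h'
  have S1 := sol_defect_small hT a b m N h (by omega) hm100
  have S2 := sol_defect_small hT a' b' m' N h' (by omega) hm100'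
  rw [← hx1, ← hy1] at D1 S1
  rw [← hx2, ← hy2] at D2 S2
  have hy1p : 0 < y1 := by rw [hy1]; linarith
  have hy2p : 0 < y2 := by rw [hy2]; linarith
  have hx1p : 0 < x1 := by rw [hx1]; linarith
  have hx2p : 0 < x2 := by rw [hx2]; linarith
  have hB3 : x2 ≤ 3 * x1 := by
    have l3 : (1:ℝ) ≤ Real.log 3 := by
      rw [Real.le_log_iff_exp_le (by norm_num)]
      have := Real.exp_one_lt_d9
      linarith
    have l2 := Real.log_two_lt_d9
    have ly : Real.log y2 ≤ Real.log 2 + Real.log y1 := by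
      rw [← Real.log_mul (by norm_num) hy1p.ne']
      apply Real.log_le_log hy2p
      rw [hy1, hy2]; linarith
    rw [abs_le] at S1 S2
    have lx : Real.log x2 ≤ Real.log 3 + Real.log x1 := by
      linarith [S1.1, S2.2]
    rw [← Real.log_mul (by norm_num) hx1p.ne'] at lx
    exact (Real.log_le_log_iff hx2p (by positivity)).1 lx
  have hA : 4 * x2 * (y2 - y1) ≤ y1 * y2 := by
    have e1 : y2 - y1 = 2 * (a' - a) := by rw [hy1, hy2]; ring
    have e2 : x2 ≤ 3 * x := by rw [hx2]; linarith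
    have e3 : (0:ℝ) ≤ 2 * (a' - a) := by linarith
    rw [e1]
    have e4 : 4 * x2 * (2 * ((a':ℝ) - a)) ≤ 4 * (3 * x) * (2 * ((a':ℝ) - a)) := by
      apply mul_le_mul_of_nonneg_right _ e3
      linarith
    have e5 : (a:ℝ) * a' ≤ y1 * y2 := by
      apply mul_le_mul _ _ (by linarith) hy1p.le
      · rw [hy1]; linarith
      · rw [hy2]; linarith
    nlinarith
  have hC : 2 * y1 ≤ x1 := by rw [hy1, hx1]; linarith
  have hD : 2 * y1 ≤ x2 := by rw [hy1, hx2]; linarith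
  have hE : 10 * x2 ≤ y1 ^ 3 := by
    have e2 : x2 ≤ 3 * x := by rw [hx2]; linarith
    have e3 : (a:ℝ) ≤ y1 := by rw [hy1]; linarith
    have e4 : (a:ℝ) ^ 3 ≤ y1 ^ 3 := pow_le_pow_left₀ (by linarith) e3 3
    have e5 : 30 * (a:ℝ) ^ 2 ≤ a ^ 3 := by
      have : (a:ℝ) ^ 3 = a * a ^ 2 := by ring
      rw [this]
      apply mul_le_mul_of_nonneg_right _ (by positivity)
      linarith
    linarith
  have hF : 60 * (x2 * y1) ≤ m := by
    have e1 : y1 ≤ b := by rw [hy1]; linarith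
    have e2 : x2 ≤ 9 * b := by rw [hx1] at hB3; linarith
    have e3 : x2 * y1 ≤ 9 * b * b := mul_le_mul e2 e1 hy1p.le (by positivity)
    nlinarith
  have hG : 60 * (x2 * y1) ≤ m' := by
    have e1 : y1 ≤ b' := by rw [hy1]; linarith
    have e2 : x2 ≤ 3 * b' := by rw [hx2]; linarith
    have e3 : x2 * y1 ≤ 3 * b' * b' := mul_le_mul e2 e1 hy1p.le (by positivity)
    nlinarith
  have hyle : y1 + 2 ≤ y2 := by rw [hy1, hy2]; linarith
  have small := eps_small x1 x2 y1 y2 m m' _ _ hy1p (by linarith) hmpos hmpos' hA hB3 hC hD hE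
    hF hG D1 D2
  -- integers
  have c1 : ((2 * (b:ℤ) + 1 : ℤ) : ℝ) = x1 := by push_cast; rfl
  have c2 : ((2 * (b':ℤ) + 1 : ℤ) : ℝ) = x2 := by push_cast; rfl
  have c3 : ((2 * (a:ℤ) - 1 : ℤ) : ℝ) = y1 := by push_cast; rfl
  have c4 : ((2 * (a':ℤ) - 1 : ℤ) : ℝ) = y2 := by push_cast; rfl
  have hz := det_zero (2 * (b:ℤ) + 1) (2 * (b':ℤ) + 1) (2 * (a:ℤ) - 1) (2 * (a':ℤ) - 1)
    ⟨b, by ring⟩ ⟨b', by ring⟩ ⟨a - 1, by ring⟩ ⟨a' - 1, by ring⟩ (by positivity) (by positivity)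
    (by omega) (by omega) (N:ℝ)
    (by rw [c2, c3]; nlinarith)
    (by rw [c1, c2, c3, c4]; exact small)
  have hzR : x1 * y2 = x2 * y1 := by
    rw [← c1, ← c2, ← c3, ← c4]
    exact_mod_cast hz
  -- the two defects are equal
  have heq : Real.log x1 - Real.log y1 - N = Real.log x2 - Real.log y2 - N := by
    have := congrArg Real.log hzR
    rw [Real.log_mul hx1p.ne' hy2p.ne', Real.log_mul hx2p.ne' hy1p.ne'] at this
    linarith
  rw [← heq] at D2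
  refine no_equal x1 x2 y1 y2 m m' _ ?_ hyle ?_ hmpos' hC hzR D1 D2
  · rw [hy1]; linarith
  · have : y1 ^ 4 ≤ (b:ℝ) ^ 4 := pow_le_pow_left₀ hy1p.le (by rw [hy1]; linarith) 4
    linarith

end Pool.Agent.W242.HS
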